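import Pool.Agent.TH103.BL.Fun

set_option autoImplicit false

/-!
For almost every direction, every orbit has reflection points arbitrarily close to the vertices.
-/

namespace Pool.Agent.K3h72.BC

open Complex Set MeasureTheory Filter Topology Pool.Agent.W780.PG Pool.Agent.W780.BB
open Pool.Agent.TH103.BL

open scoped Real ComplexConjugate

variable {n : ℕ} {p : Fin (n + 3) → ℂ}

theorem pt_of_ps (hp : IsConvexPolygon p) {z : ℂ} {θ : ℝ} {u : ℕ → Fin (n + 3)} {t : ℕ → ℝ}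
    (hz : z ∈ reg p) (O : Orb p z θ u t)
    (h : ∀ m : ℕ, ∃ K s j, tp t K < s ∧ s < t K ∧ ‖ps p z θ u K s - p j‖ < 1 / ((m : ℝ) + 1))
    {ε : ℝ} (hε : 0 < ε) : ∃ k j, ‖pt p z θ u t k - p j‖ < ε := by
  by_contra hcon
  push Not at hcon
  obtain ⟨D, hD0, hD⟩ := exists_D hp
  have hDs : ∀ i, ‖p (i + 1) - p i‖ ≤ D := fun i => hD _ (vert_mem hp _) _ (vert_mem hp _)
  obtain ⟨κ0, hκ0, hκε0⟩ := exists_kappa hp hε
  obtain ⟨κ, hκ, hκ1, hκ2⟩ : ∃ κ : ℝ, 0 < κ ∧ κ ≤ κ0 ∧ ∀ j, κ ≤ sf p j z := by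
    have h1 : ∀ᶠ κ in 𝓝[>] (0 : ℝ), ∀ j, κ ≤ sf p j z := by
      rw [eventually_all]
      intro j
      have h2 : 0 < sf p j z := hz j
      filter_upwards [Ioo_mem_nhdsGT h2] with κ hκ using hκ.2.le
    have h2 : ∀ᶠ κ in 𝓝[>] (0 : ℝ), κ ≤ κ0 := by
      filter_upwards [Ioo_mem_nhdsGT hκ0] with κ hκ using hκ.2.le
    obtain ⟨κ, ⟨h3, h4⟩, h5⟩ := ((h1.and h2).and self_mem_nhdsWithin).exists
    exact ⟨κ, h5, h4, h3⟩
  have hF : ∀ k, FarAt p z θ u t κ k := fun k j hj =>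
    hκ1.trans (hκε0 (u k) _ (O.hit k) (hcon k) j hj)
  obtain ⟨m, hm⟩ := exists_nat_one_div_lt (show 0 < κ / (2 * D) by positivity)
  obtain ⟨K1, s1, j1, b1, b2, b3⟩ := h m
  have hne1 : j1 - 1 ≠ j1 := Pool.Agent.W174.PG.im j1
  have hstart : κ ≤ sf p j1 (ps p z θ u K1 (tp t K1)) +
      sf p (j1 - 1) (ps p z θ u K1 (tp t K1)) := by
    have hcr := ps_start_creg hp hz O K1
    have c1 : 0 ≤ sf p j1 (ps p z θ u K1 (tp t K1)) := hcr j1
    have c2 : 0 ≤ sf p (j1 - 1) (ps p z θ u K1 (tp t K1)) := hcr (j1 - 1)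
    by_cases hj : ∀ m, K1 = m + 1 → j1 ≠ u m
    · have := ps_start hp O K1 hκ2 (fun m _ => hF m) hj
      linarith
    · push Not at hj
      obtain ⟨m, hm1, hm2⟩ := hj
      have := ps_start hp O K1 hκ2 (fun m _ => hF m) (j := j1 - 1) (by
        intro m' hm'
        have : m' = m := by omega
        rw [this, ← hm2]
        exact hne1)
      linarith
  have hend : κ ≤ sf p j1 (ps p z θ u K1 (t K1)) +
      sf p (j1 - 1) (ps p z θ u K1 (t K1)) := by
    have hcr : ps p z θ u K1 (t K1) ∈ creg p := side_sub_creg hp _ (O.hit K1)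
    have c1 : 0 ≤ sf p j1 (ps p z θ u K1 (t K1)) := hcr j1
    have c2 : 0 ≤ sf p (j1 - 1) (ps p z θ u K1 (t K1)) := hcr (j1 - 1)
    by_cases hj : j1 = u K1
    · have : κ ≤ sf p (j1 - 1) (ps p z θ u K1 (t K1)) := hF K1 (j1 - 1) (by
        rw [← hj]; exact hne1)
      linarith
    · have : κ ≤ sf p j1 (ps p z θ u K1 (t K1)) := hF K1 j1 hj
      linarith
  unfold ps at hstart hend b3
  rw [sf_ray, sf_ray] at hstart hend
  have hmid := affine_ge (α := sf p j1 (srcs p z u K1) + sf p (j1 - 1) (srcs p z u K1))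
    (β := sl p j1 (angs p θ u K1) + sl p (j1 - 1) (angs p θ u K1)) (κ := κ)
    (a := tp t K1) (b := t K1) (s := s1) (by linarith) (by linarith) b1.le b2.le
  have v1 : sf p j1 (p j1) = 0 := Pool.Agent.W82.BB.sf_vertex_left p j1
  have v2 : sf p (j1 - 1) (p j1) = 0 := Pool.Agent.W82.BB.sf_vertex_right p j1
  have l1 := (le_abs_self _).trans
    (sf_lip p j1 (srcs p z u K1 + s1 • dir (angs p θ u K1)) (p j1))
  have l2 := (le_abs_self _).trans
    (sf_lip p (j1 - 1) (srcs p z u K1 + s1 • dir (angs p θ u K1)) (p j1))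
  rw [v1, sf_ray] at l1
  rw [v2, sf_ray] at l2
  have l3 := mul_le_mul (hDs j1) b3.le (norm_nonneg _) hD0.le
  have l4 := mul_le_mul (hDs (j1 - 1)) b3.le (norm_nonneg _) hD0.le
  have l5 : 2 * D * (1 / ((m : ℝ) + 1)) < κ := by
    have := mul_lt_mul_of_pos_left hm (show 0 < 2 * D by linarith)
    rwa [mul_div_cancel₀ _ (show 2 * D ≠ 0 by positivity)] at this
  linarith

/-- For almost every direction, almost every point is generic and every orbit has reflection points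
arbitrarily close to the vertices. -/
theorem ae_app (hp : IsConvexPolygon p) : ∀ᵐ θ : ℝ, ∀ᵐ z : ℂ, z ∈ reg p → ∃ u t,
    Orb p z θ u t ∧ ∀ m : ℕ, ∃ k j, ‖pt p z θ u t k - p j‖ < 1 / ((m : ℝ) + 1) := by
  have hb : ∀ᵐ θ : ℝ, ∀ᵐ z : ℂ, z ∈ reg p → Ok p z θ 0 := by
    have h1 : ∀ T : ℕ, ∀ᵐ x : ℂ × ℝ, ∀ w j, uf p w (p j) ∉
        segment ℝ x.1 (x.1 + (T : ℝ) • dir x.2) := by
      intro T
      filter_upwards [Pool.Agent.W337.BB.gen_th n p hp T] with x hx using hx.1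
    have h2 := ae_swap (ae_all_iff.2 h1)
    filter_upwards [h2] with θ hθ
    filter_upwards [hθ] with z hx hxr
    refine ⟨?_, ?_⟩
    · have hc : Continuous fun s : ℝ => z + s • dir θ := by fun_prop
      have h3 : ∀ᶠ s in 𝓝 (0 : ℝ), z + s • dir θ ∈ reg p :=
        hc.continuousAt ((reg_open hp).mem_nhds (by rw [zero_smul, add_zero]; exact hxr))
      obtain ⟨δ, hδ, hball⟩ := Metric.eventually_nhds_iff.1 h3
      refine ⟨δ, hδ, fun s h4 h5 => hball ?_⟩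
      rw [Real.dist_eq, sub_zero, abs_of_pos h4]
      exact h5
    · intro w j s hs heq
      obtain ⟨T, hT⟩ := exists_nat_ge s
      apply hx T w j
      rw [← heq, segment_eq_image']
      have hT0 : (0 : ℝ) < T := hs.trans_le hT
      refine ⟨s / T, ⟨by positivity, (div_le_one hT0).2 hT⟩, ?_⟩
      simp only
      rw [add_sub_cancel_left, smul_smul, div_mul_cancel₀ _ hT0.ne']
  have hall : ∀ᵐ θ : ℝ, ∀ m : ℕ, ∀ z ∈ reg p, ∀ (u : ℕ → Fin (n + 3)) (t : ℕ → ℝ),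
      Orb p z θ u t → ∃ K s j, tp t K < s ∧ s < t K ∧
      ‖ps p z θ u K s - p j‖ < 1 / ((m : ℝ) + 1) := by
    rw [ae_all_iff]
    intro m
    exact allz hp (by positivity)
  filter_upwards [hb, hall] with θ h1 h2
  filter_upwards [h1] with z h3 hz
  obtain ⟨u, t, O⟩ := exists_orb hp (h3 hz)
  exact ⟨u, t, O, fun m => pt_of_ps hp hz O (fun m' => h2 m' z hz u t O) (by positivity)⟩

end Pool.Agent.K3h72.BC
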