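import Pool.Agent.TH103.BL.Fun

set_option autoImplicit false

/-!
Regularisation of invariant functions by averages over small discs of positions.
-/

namespace Pool.Agent.K3h72.BC

open Complex Set MeasureTheory Filter Topology Pool.Agent.W780.PG Pool.Agent.W780.BB
open Pool.Agent.TH103.BL

open scoped Real ComplexConjugate

variable {n : ℕ} {p : Fin (n + 3) → ℂ}

/-- the average of `arctan f` over a disc of positions -/
noncomputable def av (f : ℂ × ℝ → ℝ) (k : ℕ) (x : ℂ × ℝ) : ℝ :=
  ⨍ w in Metric.ball (0 : ℂ) (1 / ((k : ℝ) + 1)), Real.arctan (f (x.1 + w, x.2))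

/-- the regularisation of `arctan f` -/
noncomputable def rg (f : ℂ × ℝ → ℝ) (x : ℂ × ℝ) : ℝ := limsup (fun k => av f k x) atTop

theorem av_meas {f : ℂ × ℝ → ℝ} (hf : Measurable f) (k : ℕ) : Measurable (av f k) := by
  have h1 : StronglyMeasurable fun y : (ℂ × ℝ) × ℂ =>
      Real.arctan (f (y.1.1 + y.2, y.1.2)) := by
    refine Measurable.stronglyMeasurable ?_
    refine Real.measurable_arctan.comp (hf.comp ?_)
    exact ((measurable_fst.comp measurable_fst).add measurable_snd).prodMk
      (measurable_snd.comp measurable_fst)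
  have h2 : Measurable fun x : ℂ × ℝ => ∫ w in Metric.ball (0 : ℂ) (1 / ((k : ℝ) + 1)),
      Real.arctan (f (x.1 + w, x.2)) :=
    (h1.integral_prod_right' (ν := volume.restrict
      (Metric.ball (0 : ℂ) (1 / ((k : ℝ) + 1))))).measurable
  have h3 : av f k = fun x : ℂ × ℝ =>
      (volume.real (Metric.ball (0 : ℂ) (1 / ((k : ℝ) + 1))))⁻¹ *
        ∫ w in Metric.ball (0 : ℂ) (1 / ((k : ℝ) + 1)), Real.arctan (f (x.1 + w, x.2)) := by
    funext x
    unfold av
    rw [setAverage_eq, smul_eq_mul]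
  rw [h3]
  exact h2.const_mul _

theorem rg_meas {f : ℂ × ℝ → ℝ} (hf : Measurable f) : Measurable (rg f) := by
  unfold rg
  exact Measurable.limsup fun k => av_meas hf k

theorem ev_ball {z : ℂ} {P : ℂ → Prop} (h : ∀ᶠ z' in 𝓝 z, P z') :
    ∀ᶠ k : ℕ in atTop, ∀ w ∈ Metric.ball (0 : ℂ) (1 / ((k : ℝ) + 1)), P (z + w) := by
  obtain ⟨r, hr, hball⟩ := Metric.eventually_nhds_iff.1 h
  have h1 : ∀ᶠ k : ℕ in atTop, 1 / ((k : ℝ) + 1) < r :=
    tendsto_one_div_add_atTop_nhds_zero_nat.eventually_lt_const hr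
  filter_upwards [h1] with k hk w hw
  apply hball
  rw [dist_eq_norm, add_sub_cancel_left]
  rw [Metric.mem_ball, dist_zero_right] at hw
  linarith

theorem av_congr {f : ℂ × ℝ → ℝ} {k : ℕ} {x y : ℂ × ℝ}
    (h : ∀ w ∈ Metric.ball (0 : ℂ) (1 / ((k : ℝ) + 1)), f (x.1 + w, x.2) = f (y.1 + w, y.2)) :
    av f k x = av f k y := by
  unfold av
  rw [setAverage_eq, setAverage_eq]
  congr 1
  exact setIntegral_congr_fun Metric.isOpen_ball.measurableSet fun w hw => by rw [h w hw]

/-- the linear part of the reflection -/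
noncomputable def lin (p : Fin (n + 3) → ℂ) (i : Fin (n + 3)) : ℂ ≃ₗᵢ[ℝ] ℂ :=
  conjLIE.trans (rotation (Circle.exp (2 * tau p i)))

theorem lin_apply (i : Fin (n + 3)) (w : ℂ) : lin p i w = dir (2 * tau p i) * conj w := by
  unfold lin dir
  simp [rotation_apply, Circle.coe_exp]

theorem av_refl {f : ℂ × ℝ → ℝ} {k : ℕ} {x y : ℂ × ℝ} (i : Fin (n + 3))
    (h : ∀ w ∈ Metric.ball (0 : ℂ) (1 / ((k : ℝ) + 1)),
      f (x.1 + w, x.2) = f (y.1 + lin p i w, y.2)) :
    av f k x = av f k y := by
  unfold av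
  rw [setAverage_eq, setAverage_eq]
  congr 1
  have h1 : ∫ w in Metric.ball (0 : ℂ) (1 / ((k : ℝ) + 1)), Real.arctan (f (x.1 + w, x.2)) =
      ∫ w in Metric.ball (0 : ℂ) (1 / ((k : ℝ) + 1)),
        Real.arctan (f (y.1 + lin p i w, y.2)) := by
    exact setIntegral_congr_fun Metric.isOpen_ball.measurableSet fun w hw => by rw [h w hw]
  rw [h1]
  have h2 := (lin p i).measurePreserving.setIntegral_preimage_emb
    (lin p i).toHomeomorph.measurableEmbedding
    (fun w => Real.arctan (f (y.1 + w, y.2))) (Metric.ball (0 : ℂ) (1 / ((k : ℝ) + 1)))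
  rw [← h2]
  congr 2
  rw [(lin p i).preimage_ball, map_zero]

/-- the law of reflection near a point -/
theorem reflect_near (hp : IsConvexPolygon p) {f : ℂ × ℝ → ℝ} (hI : IsInvariantFun p f)
    {i : Fin (n + 3)} {y : ℂ} {θ s r : ℝ} (hs : 0 < s) (hr : 0 < r) (hy : y ∈ side p i)
    (h1 : y - s • dir θ ∈ reg p) (h2 : y + r • dir (2 * tau p i - θ) ∈ reg p) :
    ∀ᶠ z in 𝓝 (y - s • dir θ), f (z, θ) =
      f (rf p i z + (s + r) • dir (2 * tau p i - θ), 2 * tau p i - θ) := by
  have hrr := region_eq hp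
  have hopen := reg_open hp
  have hy0 : sf p i y = 0 := side_zero hp hy
  have hz0' : y - s • dir θ = y + (-s) • dir θ := by rw [neg_smul, sub_eq_add_neg]
  have hsl : sl p i θ < 0 := by
    have := h1 i
    change 0 < sf p i (y - s • dir θ) at this
    rw [hz0', sf_ray, hy0] at this
    nlinarith
  set T : ℂ → ℝ := fun z => sf p i z / (- sl p i θ) with hT
  set W : ℂ → ℂ := fun z => rf p i z + (s + r) • dir (2 * tau p i - θ) with hW
  have hTc : Continuous T := (sf_cont p i).div_const _
  have hrfc : Continuous (rf p i) := by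
    unfold rf
    exact continuous_const.add (continuous_const.mul (continuous_conj.comp (by fun_prop)))
  have hWc : Continuous W := hrfc.add continuous_const
  set z0 : ℂ := y - s • dir θ with hz0
  have hTz0 : T z0 = s := by
    rw [hT]
    simp only
    rw [hz0', sf_ray, hy0]
    have : sl p i θ ≠ 0 := hsl.ne
    field_simp
    ring
  have hYz : ∀ z, sf p i (z + T z • dir θ) = 0 := by
    intro z
    rw [sf_ray, hT]
    have : sl p i θ ≠ 0 := hsl.ne
    field_simp
    ring
  have hWY : ∀ z, W z = z + T z • dir θ + (s + r - T z) • dir (2 * tau p i - θ) := by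
    intro z
    have h1 := rf_fix hp i _ (hYz z)
    rw [rf_ray hp] at h1
    rw [hW]
    simp only
    rw [← h1, sub_smul]
    ring
  have hY0 : z0 + T z0 • dir θ = y := by
    rw [hTz0, hz0]; ring
  have hW0 : W z0 = y + r • dir (2 * tau p i - θ) := by
    rw [hWY, hY0, hTz0]
    congr 2
    ring
  have c1 : ∀ᶠ z in 𝓝 z0, z ∈ reg p := hopen.mem_nhds h1
  have c3 : ∀ᶠ z in 𝓝 z0, 0 < T z :=
    (hTc.tendsto z0).eventually_const_lt (by rw [hTz0]; exact hs)
  have c4 : ∀ᶠ z in 𝓝 z0, T z < s + r :=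
    (hTc.tendsto z0).eventually_lt_const (by rw [hTz0]; linarith)
  have c5 : ∀ᶠ z in 𝓝 z0, ∀ j, j ≠ i → 0 < sf p j (z + T z • dir θ) := by
    rw [eventually_all]
    intro j
    by_cases hj : j = i
    · exact Eventually.of_forall fun _ h => absurd hj h
    · have hc : Continuous fun z : ℂ => sf p j (z + T z • dir θ) :=
        (sf_cont p j).comp (continuous_id.add (hTc.smul continuous_const))
      have h2 : 0 < sf p j (z0 + T z0 • dir θ) := by
        rw [hY0]; exact side_pos hp hy hj
      filter_upwards [(hc.tendsto z0).eventually_const_lt h2] with z hz _ using hz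
  have c6 : ∀ᶠ z in 𝓝 z0, W z ∈ reg p :=
    hWc.continuousAt (hopen.mem_nhds (by rw [hW0]; exact h2))
  filter_upwards [c1, c3, c4, c5, c6] with z h1 h3 h4 h5 h6
  have hmem : z + T z • dir θ ∈ side p i :=
    Pool.Agent.W82.BB.mem_side hp (hYz z) h5
  have hinv := hI.reflect i (z + T z • dir θ) hmem θ (T z) (s + r - T z) h3 (by linarith)
    (by rw [add_sub_cancel_right, hrr]; exact h1) (by rw [← hWY, hrr]; exact h6)
  rw [add_sub_cancel_right, ← hWY] at hinv
  exact hinv

theorem rg_inv (hp : IsConvexPolygon p) {f : ℂ × ℝ → ℝ} (hI : IsInvariantFun p f) :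
    IsInvariantFun p (rg f) := by
  have hrr := region_eq hp
  have hopen := reg_open hp
  refine ⟨fun z θ => ?_, fun z θ s h1 h2 => ?_, fun i y hy θ s r h1 h2 h3 h4 => ?_⟩
  · unfold rg
    refine limsup_congr (Eventually.of_forall fun k => av_congr fun w _ => ?_)
    exact hI.periodic _ _
  · unfold rg
    refine limsup_congr ?_
    rw [hrr] at h1 h2
    filter_upwards [ev_ball (hopen.mem_nhds h1), ev_ball (hopen.mem_nhds h2)] with k a1 a2
    refine av_congr fun w hw => ?_
    simp only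
    have e : z + s • dir θ + w = z + w + s • dir θ := by ring
    have b2 := a2 w hw
    rw [e] at b2 ⊢
    exact hI.free (z + w) θ s (by rw [hrr]; exact a1 w hw) (by rw [hrr]; exact b2)
  · rw [hrr] at h3 h4
    unfold rg
    refine limsup_congr ?_
    filter_upwards [ev_ball (reflect_near hp hI h1 h2 hy h3 h4)] with k a1
    refine av_refl (p := p) i fun w hw => ?_
    simp only
    rw [a1 w hw]
    congr 2
    have e1 : rf p i (y - s • dir θ + w) = rf p i (y - s • dir θ) + lin p i w := by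
      rw [lin_apply]
      unfold rf
      simp only [map_add, map_sub]
      ring
    have e2 : rf p i (y - s • dir θ) = y - s • dir (2 * tau p i - θ) := by
      rw [sub_eq_add_neg, ← neg_smul, rf_ray hp, rf_fix hp i y (side_zero hp hy), neg_smul,
        ← sub_eq_add_neg]
    rw [e1, e2, add_smul]
    ring

theorem av_mem {f : ℂ × ℝ → ℝ} (hf : Measurable f) {k : ℕ} {z : ℂ} {θ L η : ℝ}
    (h : ∀ᵐ w : ℂ, w ∈ Metric.ball (0 : ℂ) (1 / ((k : ℝ) + 1)) →
      |Real.arctan (f (z + w, θ)) - L| ≤ η) : |av f k (z, θ) - L| ≤ η := by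
  have hpos : 0 < 1 / ((k : ℝ) + 1) := by positivity
  have h1 := (convex_closedBall L η).set_average_mem (μ := volume)
    (t := Metric.ball (0 : ℂ) (1 / ((k : ℝ) + 1)))
    (f := fun w => Real.arctan (f (z + w, θ))) Metric.isClosed_closedBall
    (Metric.measure_ball_pos _ _ hpos).ne' measure_ball_lt_top.ne ?_ ?_
  · rw [Metric.mem_closedBall, Real.dist_eq] at h1
    exact h1
  · rw [ae_restrict_iff' Metric.isOpen_ball.measurableSet]
    filter_upwards [h] with w hw hwb
    rw [Metric.mem_closedBall, Real.dist_eq]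
    exact hw hwb
  · refine Measure.integrableOn_of_bounded (M := π) measure_ball_lt_top.ne ?_ ?_
    · refine (Measurable.aestronglyMeasurable ?_)
      refine Real.measurable_arctan.comp (hf.comp ?_)
      exact (measurable_const.add measurable_id).prodMk measurable_const
    · refine Eventually.of_forall fun w => ?_
      have h2 := Real.arctan_lt_pi_div_two (f (z + w, θ))
      have h3 := Real.neg_pi_div_two_lt_arctan (f (z + w, θ))
      have := Real.pi_pos
      rw [Real.norm_eq_abs, abs_le]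
      constructor <;> linarith

theorem rg_near {f : ℂ × ℝ → ℝ} (hf : Measurable f) {z0 : ℂ} {θ L η r : ℝ}
    (h : ∀ᵐ z : ℂ, ‖z - z0‖ < r → |Real.arctan (f (z, θ)) - L| ≤ η) {z : ℂ}
    (hz : ‖z - z0‖ < r) : |rg f (z, θ) - L| ≤ η := by
  have h1 : ∀ᶠ k : ℕ in atTop, |av f k (z, θ) - L| ≤ η := by
    have h2 : ∀ᶠ z' in 𝓝 z, ‖z' - z0‖ < r := by
      have : Continuous fun z' : ℂ => ‖z' - z0‖ := by fun_prop
      exact (this.tendsto z).eventually_lt_const hz
    filter_upwards [ev_ball h2] with k hk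
    refine av_mem hf ?_
    have h3 := (measurePreserving_add_left (volume : Measure ℂ) z).quasiMeasurePreserving.ae h
    filter_upwards [h3] with w hw hwb
    exact hw (hk w hwb)
  have hb1 : ∀ᶠ k : ℕ in atTop, av f k (z, θ) ≤ L + η := by
    filter_upwards [h1] with k hk
    have := (abs_le.1 hk).2
    linarith
  have hb2 : ∀ᶠ k : ℕ in atTop, L - η ≤ av f k (z, θ) := by
    filter_upwards [h1] with k hk
    have := (abs_le.1 hk).1
    linarith
  have hbd1 : IsBoundedUnder (· ≤ ·) atTop (fun k => av f k (z, θ)) := ⟨L + η, by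
    rw [eventually_map]; exact hb1⟩
  have hbd2 : IsBoundedUnder (· ≥ ·) atTop (fun k => av f k (z, θ)) := ⟨L - η, by
    rw [eventually_map]; exact hb2⟩
  unfold rg
  rw [abs_le]
  constructor
  · have h2 : L - η ≤ limsup (fun k => av f k (z, θ)) atTop := by
      refine le_limsup_of_frequently_le hb2.frequently hbd1
    linarith
  · have h2 : limsup (fun k => av f k (z, θ)) atTop ≤ L + η :=
      limsup_le_of_le hbd2.isCoboundedUnder_le hb1
    linarith

/-- at a point where `f (·, θ)` has a continuous version -/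
theorem rg_cont {f : ℂ × ℝ → ℝ} (hf : Measurable f) {S : Set ℂ} (hS : IsOpen S) {θ : ℝ}
    {g : ℂ → ℝ} (hg : ∀ᵐ z : ℂ, z ∈ S → f (z, θ) = g z) {z0 : ℂ} (hz0 : z0 ∈ S)
    (hc : ContinuousAt g z0) : rg f (z0, θ) = Real.arctan (g z0) ∧
      ContinuousAt (fun z => rg f (z, θ)) z0 := by
  have key : ∀ η : ℝ, 0 < η → ∃ r : ℝ, 0 < r ∧ ∀ z, ‖z - z0‖ < r →
      |rg f (z, θ) - Real.arctan (g z0)| ≤ η := by
    intro η hη
    have h1 : ContinuousAt (fun z => Real.arctan (g z)) z0 :=
      Real.continuous_arctan.continuousAt.comp hc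
    have h2 : ∀ᶠ z in 𝓝 z0, |Real.arctan (g z) - Real.arctan (g z0)| < η := by
      have := Metric.tendsto_nhds.1 h1 _ hη
      simpa [Real.dist_eq] using this
    obtain ⟨r, hr, hball⟩ := Metric.eventually_nhds_iff.1 (h2.and (hS.mem_nhds hz0))
    refine ⟨r, hr, fun z hz => rg_near hf ?_ hz⟩
    filter_upwards [hg] with z' h3 h4
    obtain ⟨a1, a2⟩ := hball (show dist z' z0 < r by rw [dist_eq_norm]; exact h4)
    rw [h3 a2]
    exact a1.le
  have h0 : rg f (z0, θ) = Real.arctan (g z0) := by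
    have : |rg f (z0, θ) - Real.arctan (g z0)| ≤ 0 := by
      refine le_of_forall_pos_le_add fun η hη => ?_
      obtain ⟨r, hr, h⟩ := key η hη
      rw [zero_add]
      exact h z0 (by rw [sub_self, norm_zero]; exact hr)
    exact sub_eq_zero.1 (abs_eq_zero.1 (le_antisymm this (abs_nonneg _)))
  refine ⟨h0, ?_⟩
  rw [ContinuousAt, h0, Metric.tendsto_nhds]
  intro η hη
  obtain ⟨r, hr, h⟩ := key (η / 2) (by linarith)
  filter_upwards [Metric.ball_mem_nhds z0 hr] with z hz
  rw [Metric.mem_ball, dist_eq_norm] at hz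
  have := h z hz
  rw [Real.dist_eq]
  linarith

end Pool.Agent.K3h72.BC
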