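import Pool.Agent.K3h72.BC.Vtx

set_option autoImplicit false

/-!
The limits at the vertices exist in almost all directions and are constant.
-/

namespace Pool.Agent.K3h72.BC

open Complex Set MeasureTheory Filter Topology Pool.Agent.W780.PG Pool.Agent.W780.BB
open Pool.Agent.TH103.BL

open scoped Real ComplexConjugate

variable {n : ℕ} {p : Fin (n + 3) → ℂ}

/-- good directions: continuity across the lines through the vertices, not parallel to a side -/
def Gd (p : Fin (n + 3) → ℂ) (f : ℂ × ℝ → ℝ) (φ : ℝ) : Prop :=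
  (∀ i, ∀ z ∈ reg p, sd p i (z, φ) = 0 → ContinuousAt (fun z => f (z, φ)) z) ∧
    ∀ a, sl p a φ ≠ 0

/-- all directions in the orbit are good -/
def GA (p : Fin (n + 3) → ℂ) (f : ℂ × ℝ → ℝ) (θ : ℝ) : Prop :=
  ∀ w : List (Fin (n + 3)), Gd p f (fd p w (0, θ)).2

theorem fd_snd (hp : IsConvexPolygon p) (w : List (Fin (n + 3))) : ∃ e c : ℝ,
    (e = 1 ∨ e = -1) ∧ ∀ z θ, (fd p w (z, θ)).2 = e * θ + c := by
  obtain ⟨e, c, he, h⟩ := (hR n p hp).2.2.2.2.2.2.2.2.2.2.1 w
  refine ⟨e, c, ?_, fun z θ => (h z θ).1⟩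
  rw [he]
  exact neg_one_pow_eq_or ℝ _

theorem fd_snd_eq (hp : IsConvexPolygon p) (w : List (Fin (n + 3))) (z z' : ℂ) (θ : ℝ) :
    (fd p w (z, θ)).2 = (fd p w (z', θ)).2 := by
  obtain ⟨e, c, -, h⟩ := fd_snd hp w
  rw [h, h]

theorem GA.self {f : ℂ × ℝ → ℝ} {θ : ℝ} (h : GA p f θ) : Gd p f θ := h []

theorem GA.refl (hp : IsConvexPolygon p) {f : ℂ × ℝ → ℝ} {θ : ℝ} (h : GA p f θ)
    (a : Fin (n + 3)) : GA p f (2 * tau p a - θ) := by
  intro w
  have h1 := h (a :: w)
  have h2 : (fd p (a :: w) (0, θ)).2 = (fd p w (0, 2 * tau p a - θ)).2 := by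
    show (fd p w (rf p a 0, 2 * tau p a - θ)).2 = _
    exact fd_snd_eq hp w _ _ _
  rwa [h2] at h1

theorem ae_words (hp : IsConvexPolygon p) {P : ℝ → Prop} (h : ∀ᵐ θ : ℝ, P θ) :
    ∀ᵐ θ : ℝ, ∀ w : List (Fin (n + 3)), P (fd p w (0, θ)).2 := by
  rw [ae_all_iff]
  intro w
  obtain ⟨e, c, he, hw⟩ := fd_snd hp w
  rcases he with rfl | rfl
  · have := (measurePreserving_add_right (volume : Measure ℝ) c).quasiMeasurePreserving.ae h
    filter_upwards [this] with θ hθ
    rw [hw, one_mul]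
    exact hθ
  · have := (Measure.measurePreserving_sub_left (volume : Measure ℝ)
      c).quasiMeasurePreserving.ae h
    filter_upwards [this] with θ hθ
    rw [hw]
    have e1 : -1 * θ + c = c - θ := by ring
    rw [e1]
    exact hθ

theorem ae_sl_all (hp : IsConvexPolygon p) : ∀ᵐ θ : ℝ, ∀ a, sl p a θ ≠ 0 := by
  rw [ae_all_iff]
  exact ae_sl hp

theorem ae_GA (hp : IsConvexPolygon p) {f : ℂ × ℝ → ℝ}
    (h : ∀ᵐ θ : ℝ, ∀ i, ∀ z ∈ reg p, sd p i (z, θ) = 0 → ContinuousAt (fun z => f (z, θ)) z) :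
    ∀ᵐ θ : ℝ, GA p f θ :=
  ae_words hp (P := Gd p f) (by filter_upwards [h, ae_sl_all hp] with θ h1 h2 using ⟨h1, h2⟩)

theorem sf_self (i : Fin (n + 3)) : sf p i (p i) = 0 := Pool.Agent.W82.BB.sf_vertex_left p i
theorem sf_pred (i : Fin (n + 3)) : sf p (i - 1) (p i) = 0 := Pool.Agent.W82.BB.sf_vertex_right p i

theorem sf_other (hp : IsConvexPolygon p) {i j : Fin (n + 3)} (h1 : j ≠ i) (h2 : j ≠ i - 1) :
    0 < sf p j (p i) := by
  refine hp.pos j i (Ne.symm h1) ?_
  intro h
  apply h2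
  rw [h, add_sub_cancel_right]

theorem pred_ne_self (i : Fin (n + 3)) : i - 1 ≠ i := Pool.Agent.W174.PG.im i

theorem side_len (hp : IsConvexPolygon p) (a : Fin (n + 3)) :
    0 < ‖p (a + 1) - p a‖ := by
  rw [norm_pos_iff, sub_ne_zero]
  intro h
  exact Pool.Agent.W174.PG.i1 a (Pool.Agent.W174.PG.inj hp h)

/-- crossing directions -/
theorem vl_same (hp : IsConvexPolygon p) {f : ℂ × ℝ → ℝ} (hI : IsInvariantFun p f)
    {i : Fin (n + 3)} {θ : ℝ} (hG : Gd p f θ)
    (h : (0 < sl p i θ ∧ 0 < sl p (i - 1) θ) ∨ (sl p i θ < 0 ∧ sl p (i - 1) θ < 0)) :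
    ∃ L, VL p f i θ L := by
  have hnear : ∀ j, j ≠ i → j ≠ i - 1 → ∀ᶠ s in 𝓝 (0 : ℝ), 0 < sf p j (p i + s • dir θ) := by
    intro j h1 h2
    have hc : Continuous fun s : ℝ => sf p j (p i + s • dir θ) := (sf_cont p j).comp (by fun_prop)
    refine (hc.tendsto 0).eventually_const_lt ?_
    rw [zero_smul, add_zero]
    exact sf_other hp h1 h2
  obtain ⟨s0, hs0⟩ : ∃ s0 : ℝ, p i + s0 • dir θ ∈ reg p := by
    rcases h with ⟨h1, h2⟩ | ⟨h1, h2⟩
    · have : ∀ᶠ s in 𝓝[>] (0 : ℝ), ∀ j, 0 < sf p j (p i + s • dir θ) := by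
        rw [eventually_all]
        intro j
        by_cases hj : j = i
        · filter_upwards [self_mem_nhdsWithin] with s hs
          rw [hj, sf_ray, sf_self, zero_add]
          exact mul_pos hs h1
        by_cases hj2 : j = i - 1
        · filter_upwards [self_mem_nhdsWithin] with s hs
          rw [hj2, sf_ray, sf_pred, zero_add]
          exact mul_pos hs h2
        · exact nhdsWithin_le_nhds (hnear j hj hj2)
      obtain ⟨s, hs⟩ := this.exists
      exact ⟨s, hs⟩
    · have : ∀ᶠ s in 𝓝[<] (0 : ℝ), ∀ j, 0 < sf p j (p i + s • dir θ) := by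
        rw [eventually_all]
        intro j
        by_cases hj : j = i
        · filter_upwards [self_mem_nhdsWithin] with s hs
          rw [hj, sf_ray, sf_self, zero_add]
          exact mul_pos_of_neg_of_neg hs h1
        by_cases hj2 : j = i - 1
        · filter_upwards [self_mem_nhdsWithin] with s hs
          rw [hj2, sf_ray, sf_pred, zero_add]
          exact mul_pos_of_neg_of_neg hs h2
        · exact nhdsWithin_le_nhds (hnear j hj hj2)
      obtain ⟨s, hs⟩ := this.exists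
      exact ⟨s, hs⟩
  refine ⟨_, vl_cross hp hI hs0 (hG.1 i _ hs0 ?_)⟩
  unfold sd
  simp only
  rw [add_sub_cancel_left, real_smul]
  have : conj (dir θ) * ((s0 : ℂ) * dir θ) = (s0 : ℂ) * (dir θ * conj (dir θ)) := by ring
  rw [this, Complex.mul_conj, normSq_eq_norm_sq, norm_dir]
  simp

theorem sl_i (hp : IsConvexPolygon p) {i : Fin (n + 3)} {θ ψ : ℝ} {m : ℤ}
    (h : θ - tau p i = ψ + m * (2 * π)) : sl p i θ = ‖p (i + 1) - p i‖ * Real.sin ψ := by
  rw [sl_eq hp, h, Real.sin_add_int_mul_two_pi]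

theorem sl_pred (hp : IsConvexPolygon p) {i : Fin (n + 3)} {θ ψ : ℝ} {m : ℤ}
    (h : θ - tau p i = ψ + m * (2 * π)) :
    sl p (i - 1) θ = ‖p (i - 1 + 1) - p (i - 1)‖ * Real.sin (ang p i - ψ) := by
  obtain ⟨k, hk⟩ := Pool.Agent.W337.BB.tau_th n p hp i
  rw [sl_eq hp]
  congr 1
  have h1 : θ - tau p (i - 1) = (ψ - ang p i + π) + ((m + k : ℤ) : ℝ) * (2 * π) := by
    push_cast
    linarith
  rw [h1, Real.sin_add_int_mul_two_pi, Real.sin_add_pi, ← Real.sin_neg]
  congr 1
  ring

theorem vl_ind (hp : IsConvexPolygon p) {f : ℂ × ℝ → ℝ} (hI : IsInvariantFun p f)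
    (i : Fin (n + 3)) : ∀ (N : ℕ) (θ ψ : ℝ) (m : ℤ), GA p f θ →
    θ - tau p i = ψ + m * (2 * π) →
    ((ang p i < ψ ∧ ψ < π ∧ ψ < (N + 1) * ang p i) ∨
      (ψ < 0 ∧ ang p i - π < ψ ∧ ang p i - ψ < (N + 1) * ang p i)) → ∃ L, VL p f i θ L := by
  obtain ⟨-, hα0, hαπ⟩ := Pool.Agent.W782.PG.ang_eq hp (i := i)
  obtain ⟨k, hk⟩ := Pool.Agent.W337.BB.tau_th n p hp i
  set α := ang p i with hα
  have hb1 : 0 < ‖p (i + 1) - p i‖ := side_len hp i
  have hb2 : 0 < ‖p (i - 1 + 1) - p (i - 1)‖ := side_len hp (i - 1)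
  intro N
  induction N with
  | zero =>
    intro θ ψ m _ _ h
    exfalso
    rcases h with ⟨h1, -, h3⟩ | ⟨h1, -, h3⟩
    · simp at h3; linarith
    · simp at h3; linarith
  | succ N ih =>
    intro θ ψ m hG hψ h
    have e1 := sl_i hp hψ
    have e2 := sl_pred hp hψ
    rw [← hα] at e2
    rcases h with ⟨h1, h2, h3⟩ | ⟨h1, h2, h3⟩
    · -- reflection in the side `i - 1`
      have hG' := hG.refl hp (i - 1)
      have hψ' : 2 * tau p (i - 1) - θ - tau p i =
          (2 * α - ψ) + ((-1 - 2 * k - m : ℤ) : ℝ) * (2 * π) := by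
        push_cast
        linarith
      have e3 := sl_i hp hψ'
      have e4 := sl_pred hp hψ'
      rw [← hα] at e4
      have hex : ∃ L, VL p f i (2 * tau p (i - 1) - θ) L := by
        rcases lt_trichotomy (2 * α - ψ) 0 with h4 | h4 | h4
        · refine ih _ _ _ hG' hψ' (Or.inr ⟨h4, by linarith, ?_⟩)
          push_cast at h3
          linarith
        · exfalso
          apply hG'.self.2 i
          rw [e3, h4, Real.sin_zero, mul_zero]
        · refine vl_same hp hI hG'.self (Or.inl ⟨?_, ?_⟩)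
          · rw [e3]
            exact mul_pos hb1 (Real.sin_pos_of_pos_of_lt_pi h4 (by linarith))
          · rw [e4]
            exact mul_pos hb2 (Real.sin_pos_of_pos_of_lt_pi (by linarith) (by linarith))
      obtain ⟨L, hL⟩ := hex
      refine ⟨L, vl_refl hp hI (sf_pred i) (sf_self i) ?_ ?_ ?_ hL⟩
      · intro j hj1 hj2
        exact sf_other hp hj2 hj1
      · rw [e2]
        exact mul_neg_of_pos_of_neg hb2
          (Real.sin_neg_of_neg_of_neg_pi_lt (by linarith) (by linarith))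
      · rw [e1]
        exact mul_pos hb1 (Real.sin_pos_of_pos_of_lt_pi (by linarith) h2)
    · -- reflection in the side `i`
      have hG' := hG.refl hp i
      have hψ' : 2 * tau p i - θ - tau p i = (-ψ) + ((-m : ℤ) : ℝ) * (2 * π) := by
        push_cast
        linarith
      have e3 := sl_i hp hψ'
      have e4 := sl_pred hp hψ'
      rw [← hα] at e4
      have hex : ∃ L, VL p f i (2 * tau p i - θ) L := by
        rcases lt_trichotomy (-ψ) α with h4 | h4 | h4
        · refine vl_same hp hI hG'.self (Or.inl ⟨?_, ?_⟩)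
          · rw [e3]
            exact mul_pos hb1 (Real.sin_pos_of_pos_of_lt_pi (by linarith) (by linarith))
          · rw [e4]
            exact mul_pos hb2 (Real.sin_pos_of_pos_of_lt_pi (by linarith) (by linarith))
        · exfalso
          apply hG'.self.2 (i - 1)
          rw [e4, h4, sub_self, Real.sin_zero, mul_zero]
        · refine ih _ _ _ hG' hψ' (Or.inl ⟨h4, by linarith, ?_⟩)
          push_cast at h3
          linarith
      obtain ⟨L, hL⟩ := hex
      refine ⟨L, vl_refl hp hI (sf_self i) (sf_pred i) ?_ ?_ ?_ hL⟩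
      · intro j hj1 hj2
        exact sf_other hp hj1 hj2
      · rw [e1]
        exact mul_neg_of_pos_of_neg hb1
          (Real.sin_neg_of_neg_of_neg_pi_lt (by linarith) (by linarith))
      · rw [e2]
        exact mul_pos hb2 (Real.sin_pos_of_pos_of_lt_pi (by linarith) (by linarith))

/-- the limits at the vertices exist -/
theorem vl_exists (hp : IsConvexPolygon p) {f : ℂ × ℝ → ℝ} (hI : IsInvariantFun p f)
    {θ : ℝ} (hG : GA p f θ) (i : Fin (n + 3)) : ∃ L, VL p f i θ L := by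
  obtain ⟨-, hα0, hαπ⟩ := Pool.Agent.W782.PG.ang_eq hp (i := i)
  have hb1 : 0 < ‖p (i + 1) - p i‖ := side_len hp i
  have hb2 : 0 < ‖p (i - 1 + 1) - p (i - 1)‖ := side_len hp (i - 1)
  obtain ⟨m, ⟨h1, h2⟩, -⟩ := existsUnique_sub_zsmul_mem_Ioc Real.two_pi_pos (θ - tau p i) (-π)
  set ψ := θ - tau p i - m • (2 * π) with hψ0
  have hψ : θ - tau p i = ψ + m * (2 * π) := by rw [hψ0, zsmul_eq_mul]; ring
  have e1 := sl_i hp hψ
  have e2 := sl_pred hp hψ
  have n1 := hG.self.2 i
  have n2 := hG.self.2 (i - 1)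
  rw [e1] at n1
  rw [e2] at n2
  obtain ⟨N, hN⟩ := exists_nat_gt (2 * π / ang p i)
  rw [div_lt_iff₀ hα0] at hN
  have hN' : 2 * π < ((N : ℝ) + 1) * ang p i := by linarith
  rcases lt_trichotomy ψ 0 with h3 | h3 | h3
  · rcases lt_trichotomy ψ (ang p i - π) with h4 | h4 | h4
    · refine vl_same hp hI hG.self (Or.inr ⟨?_, ?_⟩)
      · rw [e1]
        exact mul_neg_of_pos_of_neg hb1 (Real.sin_neg_of_neg_of_neg_pi_lt h3 h1)
      · rw [e2]
        refine mul_neg_of_pos_of_neg hb2 ?_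
        have : Real.sin (ang p i - ψ) = - Real.sin (ang p i - ψ - π) := by
          rw [Real.sin_sub_pi, neg_neg]
        rw [this]
        have := Real.sin_pos_of_pos_of_lt_pi (x := ang p i - ψ - π) (by linarith) (by linarith)
        linarith
    · exfalso
      apply n2
      rw [h4, sub_sub_cancel, Real.sin_pi, mul_zero]
    · exact vl_ind hp hI i N θ ψ m hG hψ (Or.inr ⟨h3, h4, by linarith⟩)
  · exfalso
    apply n1
    rw [h3, Real.sin_zero, mul_zero]
  · rcases lt_trichotomy ψ (ang p i) with h4 | h4 | h4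
    · refine vl_same hp hI hG.self (Or.inl ⟨?_, ?_⟩)
      · rw [e1]
        exact mul_pos hb1 (Real.sin_pos_of_pos_of_lt_pi h3 (by linarith))
      · rw [e2]
        exact mul_pos hb2 (Real.sin_pos_of_pos_of_lt_pi (by linarith) (by linarith))
    · exfalso
      apply n2
      rw [h4, sub_self, Real.sin_zero, mul_zero]
    · have h5 : ψ < π := by
        rcases lt_or_eq_of_le (show ψ ≤ π by linarith) with h | h
        · exact h
        · exfalso
          apply n1
          rw [h, Real.sin_pi, mul_zero]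
      exact vl_ind hp hI i N θ ψ m hG hψ (Or.inl ⟨h4, h5, by linarith⟩)

theorem vertex_neBot (hp : IsConvexPolygon p) (i : Fin (n + 3)) : (𝓝[reg p] (p i)).NeBot := by
  rw [← mem_closure_iff_nhdsWithin_neBot, (hB n p hp).2.2.2.2.2.2.1]
  exact vert_mem hp i

/-- the limits at a vertex with an irrational angle are constant -/
theorem vl_const (hp : IsConvexPolygon p) {f : ℂ × ℝ → ℝ} (hf : Measurable f)
    (hI : IsInvariantFun p f) (hG : ∀ᵐ θ : ℝ, GA p f θ) {i : Fin (n + 3)}
    (hirr : Irrational (ang p i / π)) : ∃ c : ℝ, ∀ᵐ θ : ℝ, VL p f i θ c := by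
  have hne := vertex_neBot hp i
  -- a sequence of points which tends to the vertex
  have hcl : p i ∈ closure (reg p) := by
    rw [(hB n p hp).2.2.2.2.2.2.1]
    exact vert_mem hp i
  obtain ⟨zs, hzs1, hzs2⟩ := mem_closure_iff_seq_limit.1 hcl
  have hzs : Tendsto zs atTop (𝓝[reg p] (p i)) :=
    tendsto_nhdsWithin_iff.2 ⟨hzs2, Eventually.of_forall hzs1⟩
  set g : ℝ → ℝ := fun θ => limsup (fun m => f (zs m, θ)) atTop with hg
  have hgm : Measurable g := by
    refine Measurable.limsup fun m => ?_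
    exact hf.comp (measurable_const.prodMk measurable_id)
  have hper : ∀ θ, g (θ + 2 * π) = g θ := by
    intro θ
    rw [hg]
    simp only [hI.periodic]
  have hval : ∀ θ L, VL p f i θ L → g θ = L := by
    intro θ L h
    exact (h.comp hzs).limsup_eq
  have hVL : ∀ θ, GA p f θ → VL p f i θ (g θ) := by
    intro θ h
    obtain ⟨L, hL⟩ := vl_exists hp hI h i
    rw [hval θ L hL]
    exact hL
  -- the reflection law
  have hlaw : ∀ a, (i = a ∨ i = a + 1) → ∀ θ, GA p f θ → g (2 * tau p a - θ) = g θ := by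
    intro a ha θ h
    rcases lt_or_gt_of_ne (h.self.2 a) with h1 | h1
    · exact (vl_law hp hI ha h1 (hVL θ h) (hVL _ (h.refl hp a))).symm
    · have h2 : sl p a (2 * tau p a - θ) < 0 := by rw [sl_refl hp]; linarith
      have h3 := vl_law hp hI ha h2 (hVL _ (h.refl hp a)) (hVL _ ((h.refl hp a).refl hp a))
      rw [sub_sub_cancel] at h3
      exact h3
  have h1 : ∀ᵐ θ : ℝ, g (2 * tau p i - θ) = g θ := by
    filter_upwards [hG] with θ h using hlaw i (Or.inl rfl) θ h
  have h2 : ∀ᵐ θ : ℝ, g (2 * tau p (i - 1) - θ) = g θ := by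
    filter_upwards [hG] with θ h using hlaw (i - 1) (Or.inr (by rw [sub_add_cancel])) θ h
  obtain ⟨k, hk⟩ := Pool.Agent.W337.BB.tau_th n p hp i
  have hirr2 : Irrational ((tau p i - tau p (i - 1)) / π) := by
    rw [hk]
    have : (π - ang p i + 2 * k * π) / π = ((1 + 2 * k : ℤ) : ℝ) - ang p i / π := by
      have := Real.pi_ne_zero
      field_simp
      push_cast
      ring
    rw [this]
    exact hirr.intCast_sub _
  have h3 := Filter.exists_eventuallyEq_const_of_forall_separating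
    (l := ae (volume : Measure ℝ)) (f := g) (MeasurableSet : Set ℝ → Prop) ?_
  · obtain ⟨c, hc⟩ := h3
    refine ⟨c, ?_⟩
    filter_upwards [hc, hG] with θ h4 h5
    have := hVL θ h5
    rwa [h4] at this
  · intro U hU
    rcases Pool.Agent.W363.BB.rot (g ⁻¹' U) (tau p i) (tau p (i - 1)) (hgm hU)
      (fun θ => by rw [mem_preimage, mem_preimage, hper])
      (by filter_upwards [h1] with θ hθ; rw [mem_preimage, mem_preimage, hθ])
      (by filter_upwards [h2] with θ hθ; rw [mem_preimage, mem_preimage, hθ]) hirr2 with h | h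
    · right
      exact measure_eq_zero_iff_ae_notMem.1 h
    · left
      have := measure_eq_zero_iff_ae_notMem.1 h
      filter_upwards [this] with θ hθ
      simpa using hθ

end Pool.Agent.K3h72.BC
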