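import Pool.Agent.K3h72.BC.Osc
import Pool.Agent.K3h72.BC.Lim
import Pool.Agent.W973.BB.Rev

set_option autoImplicit false

/-!
Jumps at the lines through the vertices: counting.
-/

namespace Pool.Agent.K3h72.BC

open Complex Set MeasureTheory Filter Topology Pool.Agent.W780.PG Pool.Agent.W780.BB
open Pool.Agent.TH103.BL

open scoped Real ComplexConjugate ENNReal

variable {n : ℕ} {p : Fin (n + 3) → ℂ}

/-- The positional variation of `f` is integrable: for almost every direction `θ` the function `f`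
agrees almost everywhere in the region with a function `G` of the offset, whose variation is at
most `V θ`, where `V` has a finite integral over a period. -/
def FinitePositionalVariation (p : Fin (n + 3) → ℂ) (f : ℂ × ℝ → ℝ) : Prop :=
  ∃ V : ℝ → ℝ≥0∞, Measurable V ∧ (∀ θ, V (θ + 2 * π) = V θ) ∧
    ∫⁻ θ in Ico 0 (2 * π), V θ ≠ ∞ ∧
    ∀ᵐ θ : ℝ, ∃ G : ℝ → ℝ, (∀ᵐ z : ℂ, z ∈ region p → f (z, θ) = G (conj (dir θ) * z).im) ∧
      eVariationOn G univ ≤ V θ

theorem fp_ray (hp : IsConvexPolygon p) (w : List (Fin (n + 3))) (z : ℂ) (θ s : ℝ) (z' : ℂ) :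
    fp p w (z + s • dir θ) = fp p w z + s • dir (fd p w (z', θ)).2 := by
  obtain ⟨e, c, -, he⟩ := (hR n p hp).2.2.2.2.2.2.2.2.2.2.1 w
  rw [(he z θ).2 s, (he z' θ).1]

theorem ch_move (v : List (Fin (n + 3))) {B A : ℂ} {r : ℝ} (hr : 0 < r)
    (hB' : A + r • (B - A) ∈ reg p) (h : Ch p v B A) : Ch p v (A + r • (B - A)) A := by
  cases v with
  | nil => exact h
  | cons i v =>
    obtain ⟨h1, h2, h3, h4⟩ := h
    have h5 : sf p i (A + r • (B - A)) = (1 - r) * sf p i A + r * sf p i B :=
      Pool.Agent.W82.BB.sf_line p i A B r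
    have h6 : 0 < sf p i (A + r • (B - A)) := hB' i
    have hd : 0 < sf p i B - sf p i A := by linarith
    have hcr : cr p i (A + r • (B - A)) A = cr p i B A := by
      unfold cr
      rw [h5]
      have e1 : (1 - r) * sf p i A + r * sf p i B - sf p i A = r * (sf p i B - sf p i A) := by
        ring
      rw [e1]
      have e2 : A - (A + r • (B - A)) = -(r • (B - A)) := by ring
      rw [e2, smul_neg, smul_smul]
      have e3 : ((1 - r) * sf p i A + r * sf p i B) / (r * (sf p i B - sf p i A)) * r =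
          r + sf p i A / (sf p i B - sf p i A) := by
        field_simp
        ring
      rw [e3, add_smul]
      have e4 : B = A + (B - A) := by ring
      have e5 : sf p i B / (sf p i B - sf p i A) = 1 + sf p i A / (sf p i B - sf p i A) := by
        field_simp
        ring
      rw [e5, add_smul, one_smul]
      have e6 : (sf p i A / (sf p i B - sf p i A)) • (A - B) =
          -((sf p i A / (sf p i B - sf p i A)) • (B - A)) := by
        rw [← smul_neg, neg_sub]
      rw [e6]
      ring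
    refine ⟨h6, h2, ?_, ?_⟩
    · rw [hcr]; exact h3
    · rw [hcr]; exact h4

/-- directions in which two different points have different offsets -/
theorem ae_os_ne {A B : ℂ} (h : A ≠ B) : ∀ᵐ φ : ℝ, os φ A ≠ os φ B := by
  have hcount : {φ : ℝ | ¬ os φ A ≠ os φ B}.Countable := by
    refine (countable_range fun k : ℤ => arg (A - B) - k * π).mono ?_
    intro φ hφ
    rw [mem_ofPred_eq, not_not] at hφ
    have h1 : (conj (dir φ) * (A - B)).im = 0 := by
      unfold os at hφ
      rw [mul_sub, sub_im, hφ, sub_self]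
    have h2 : A - B = (‖A - B‖ : ℂ) * dir (arg (A - B)) := by
      unfold dir
      exact (Complex.norm_mul_exp_arg_mul_I _).symm
    rw [h2, conj_dir] at h1
    have h3 : dir (-φ) * ((‖A - B‖ : ℂ) * dir (arg (A - B))) =
        (‖A - B‖ : ℂ) * dir (-φ + arg (A - B)) := by
      rw [dir_add]; ring
    rw [h3, im_ofReal_mul, dir_im] at h1
    have h4 : ‖A - B‖ ≠ 0 := by rw [norm_ne_zero_iff, sub_ne_zero]; exact h
    rcases mul_eq_zero.1 h1 with h5 | h5
    · exact absurd h5 h4
    · obtain ⟨k, hk⟩ := Real.sin_eq_zero_iff.1 h5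
      exact ⟨k, by simp only; linarith⟩
  exact hcount.measure_zero _

theorem ae_gen (p : Fin (n + 3) → ℂ) (z : ℂ) :
    ∀ᵐ θ : ℝ, ∀ w j, ∀ s : ℝ, 0 < s → z + s • dir θ ≠ uf p w (p j) := by
  rw [ae_all_iff]
  intro w
  rw [ae_all_iff]
  intro j
  have hcount : {θ : ℝ | ¬ ∀ s : ℝ, 0 < s → z + s • dir θ ≠ uf p w (p j)}.Countable := by
    refine (countable_range fun k : ℤ => arg (uf p w (p j) - z) + k * (2 * π)).mono ?_
    intro θ hθ
    rw [mem_ofPred_eq] at hθ
    push Not at hθ
    obtain ⟨s, hs, he⟩ := hθ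
    have h2 : uf p w (p j) - z = (s : ℂ) * dir θ := by rw [← he, real_smul]; ring
    have h3 : ‖uf p w (p j) - z‖ = s := by
      rw [h2, norm_mul, norm_dir, mul_one, norm_real, Real.norm_eq_abs, abs_of_pos hs]
    have h4 := Complex.norm_mul_exp_arg_mul_I (uf p w (p j) - z)
    rw [h3] at h4
    have h5 : exp ((θ : ℂ) * I) = exp ((arg (uf p w (p j) - z) : ℂ) * I) := by
      have hs' : (s : ℂ) ≠ 0 := by exact_mod_cast hs.ne'
      apply mul_left_cancel₀ hs'
      rw [h4]
      exact h2.symm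
    obtain ⟨k, hk⟩ := Complex.exp_eq_exp_iff_exists_int.1 h5
    refine ⟨k, ?_⟩
    simp only
    have h6 : (θ : ℂ) * I = ((arg (uf p w (p j) - z) + k * (2 * π) : ℝ) : ℂ) * I := by
      rw [hk]; push_cast; ring
    have h7 := mul_right_cancel₀ I_ne_zero h6
    exact_mod_cast h7.symm
  exact hcount.measure_zero _

theorem vol_refl {A : Set ℝ} (hA : MeasurableSet A) (hper : ∀ θ, θ + 2 * π ∈ A ↔ θ ∈ A)
    {e c : ℝ} (he : e = 1 ∨ e = -1) :
    volume ({φ | e * (φ - c) ∈ A} ∩ Ico 0 (2 * π)) = volume (A ∩ Ico 0 (2 * π)) := by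
  rcases he with rfl | rfl
  · have h1 : {φ | 1 * (φ - c) ∈ A} ∩ Ico 0 (2 * π) =
        (fun φ => φ + -c) ⁻¹' (A ∩ Ico (-c) (-c + 2 * π)) := by
      ext φ
      simp only [mem_inter_iff, mem_ofPred_eq, mem_preimage, mem_Ico, one_mul]
      rw [← sub_eq_add_neg]
      constructor
      · rintro ⟨a, b, d⟩; exact ⟨a, by linarith, by linarith⟩
      · rintro ⟨a, b, d⟩; exact ⟨a, by linarith, by linarith⟩
    rw [h1, (measurePreserving_add_right (volume : Measure ℝ) (-c)).measure_preimage
      (hA.inter measurableSet_Ico).nullMeasurableSet]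
    exact strip1 A hA hper (-c)
  · have h1 : {φ | -1 * (φ - c) ∈ A} ∩ Ico 0 (2 * π) =
        (fun φ => c - φ) ⁻¹' (A ∩ Ioc (c - 2 * π) c) := by
      ext φ
      simp only [mem_inter_iff, mem_ofPred_eq, mem_preimage, mem_Ico, mem_Ioc]
      have : -1 * (φ - c) = c - φ := by ring
      rw [this]
      constructor
      · rintro ⟨a, b, d⟩; exact ⟨a, by linarith, by linarith⟩
      · rintro ⟨a, b, d⟩; exact ⟨a, by linarith, by linarith⟩
    rw [h1, (Measure.measurePreserving_sub_left (volume : Measure ℝ) c).measure_preimage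
      (hA.inter measurableSet_Ioc).nullMeasurableSet]
    have h2 : volume (A ∩ Ioc (c - 2 * π) c) = volume (A ∩ Ico (c - 2 * π) c) := by
      apply measure_congr
      exact (Filter.EventuallyEq.rfl).inter (Ico_ae_eq_Ioc).symm
    rw [h2]
    have h3 := strip1 A hA hper (c - 2 * π)
    rw [sub_add_cancel] at h3
    exact h3

/-- periodic sets which are null in a period are null -/
theorem null_of_period {A : Set ℝ} (hA : MeasurableSet A) (hper : ∀ θ, θ + 2 * π ∈ A ↔ θ ∈ A)
    (h : volume (A ∩ Ico 0 (2 * π)) = 0) : volume A = 0 := by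
  have h1 : A ⊆ ⋃ k : ℤ, A ∩ Ico ((k : ℝ) * (2 * π)) ((k : ℝ) * (2 * π) + 2 * π) := by
    intro θ hθ
    rw [mem_iUnion]
    refine ⟨⌊θ / (2 * π)⌋, hθ, ?_, ?_⟩
    · have := Int.floor_le (θ / (2 * π))
      rwa [le_div_iff₀ Real.two_pi_pos] at this
    · have := Int.lt_floor_add_one (θ / (2 * π))
      rw [div_lt_iff₀ Real.two_pi_pos] at this
      linarith
  refine measure_mono_null h1 (measure_iUnion_null fun k => ?_)
  rw [strip1 A hA hper]
  exact h

end Pool.Agent.K3h72.BC
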