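import Pool.Agent.K3h72.BC.Vtx

set_option autoImplicit false

/-!
Strips of parallel orbits which end at a vertex.
-/

namespace Pool.Agent.K3h72.BC

open Complex Set MeasureTheory Filter Topology Pool.Agent.W780.PG Pool.Agent.W780.BB
open Pool.Agent.TH103.BL

open scoped Real ComplexConjugate

variable {n : ℕ} {p : Fin (n + 3) → ℂ} {z : ℂ} {θ : ℝ} {u : ℕ → Fin (n + 3)} {t : ℕ → ℝ}

theorem conj_dir (b : ℝ) : conj (dir b) = dir (-b) := by
  apply Complex.ext
  · rw [conj_re, dir_re, dir_re, Real.cos_neg]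
  · rw [conj_im, dir_im, dir_im, Real.sin_neg]

theorem conj_dir_mul (b : ℝ) : conj (dir b) * dir b = 1 := by
  rw [conj_dir, ← dir_add, neg_add_cancel, dir_zero]

theorem rf_normal (a : Fin (n + 3)) (X : ℂ) (c φ : ℝ) : rf p a (X + c • (I * dir φ)) =
    rf p a X + (-c) • (I * dir (2 * tau p a - φ)) := by
  unfold rf
  have h1 : dir (2 * tau p a - φ) = dir (2 * tau p a) * conj (dir φ) := by
    rw [conj_dir, ← dir_add, sub_eq_add_neg]
  rw [h1, real_smul, real_smul]
  simp only [map_add, map_sub, map_mul, conj_ofReal, conj_I]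
  push_cast
  ring

theorem srcs_normal (z : ℂ) (θ : ℝ) (u : ℕ → Fin (n + 3)) (l : ℝ) (k : ℕ) :
    srcs p (z + l • (I * dir θ)) u k =
      srcs p z u k + ((-1) ^ k * l) • (I * dir (angs p θ u k)) := by
  induction k with
  | zero => simp [srcs, angs]
  | succ k ih =>
    show rf p (u k) (srcs p (z + l • (I * dir θ)) u k) = rf p (u k) (srcs p z u k) + _
    rw [ih, rf_normal]
    have : -((-1) ^ k * l) = (-1 : ℝ) ^ (k + 1) * l := by rw [pow_succ]; ring
    rw [this]
    rfl

/-- the offset of the point `x` from the line of the orbit in frame `k` -/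
noncomputable def off (p : Fin (n + 3) → ℂ) (z : ℂ) (θ : ℝ) (u : ℕ → Fin (n + 3)) (k : ℕ)
    (x : ℂ) : ℝ := (conj (dir (angs p θ u k)) * (x - srcs p z u k)).im

theorem off_shift (z : ℂ) (θ : ℝ) (u : ℕ → Fin (n + 3)) (l : ℝ) (k : ℕ) (x : ℂ) :
    off p (z + l • (I * dir θ)) θ u k x = off p z θ u k x - (-1) ^ k * l := by
  unfold off
  rw [srcs_normal]
  have h1 : conj (dir (angs p θ u k)) *
      (x - (srcs p z u k + ((-1) ^ k * l) • (I * dir (angs p θ u k)))) =
      conj (dir (angs p θ u k)) * (x - srcs p z u k) -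
        (((-1) ^ k * l : ℝ) : ℂ) * (I * (conj (dir (angs p θ u k)) * dir (angs p θ u k))) := by
    rw [real_smul]; ring
  rw [h1, conj_dir_mul, mul_one, sub_im, im_ofReal_mul, I_im, mul_one]

theorem off_line (z : ℂ) (θ : ℝ) (u : ℕ → Fin (n + 3)) (k : ℕ) (a b : ℂ) (x : ℝ) :
    off p z θ u k (a + x • (b - a)) =
      off p z θ u k a + x * (off p z θ u k b - off p z θ u k a) := by
  unfold off
  have h1 : conj (dir (angs p θ u k)) * (a + x • (b - a) - srcs p z u k) =
      conj (dir (angs p θ u k)) * (a - srcs p z u k) + (x : ℂ) *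
        (conj (dir (angs p θ u k)) * (b - srcs p z u k) -
          conj (dir (angs p θ u k)) * (a - srcs p z u k)) := by
    rw [real_smul]; ring
  rw [h1, add_im, im_ofReal_mul, sub_im]

theorem off_diff (z : ℂ) (θ : ℝ) (u : ℕ → Fin (n + 3)) (k : ℕ) (a : Fin (n + 3)) :
    off p z θ u k (p (a + 1)) - off p z θ u k (p a) = - sl p a (angs p θ u k) := by
  unfold off sl
  rw [← sub_im]
  have h1 : conj (dir (angs p θ u k)) * (p (a + 1) - srcs p z u k) -
      conj (dir (angs p θ u k)) * (p a - srcs p z u k) =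
      conj (conj (p (a + 1) - p a) * dir (angs p θ u k)) := by
    rw [map_mul, conj_conj]; ring
  rw [h1, conj_im]

theorem off_ray (z : ℂ) (θ : ℝ) (u : ℕ → Fin (n + 3)) (k : ℕ) (s : ℝ) :
    off p z θ u k (srcs p z u k + s • dir (angs p θ u k)) = 0 := by
  unfold off
  rw [add_sub_cancel_left, real_smul]
  have : conj (dir (angs p θ u k)) * ((s : ℂ) * dir (angs p θ u k)) =
      (s : ℂ) * (conj (dir (angs p θ u k)) * dir (angs p θ u k)) := by ring
  rw [this, conj_dir_mul, mul_one, ofReal_im]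

theorem off_lip (z : ℂ) (θ : ℝ) (u : ℕ → Fin (n + 3)) (k : ℕ) (x y : ℂ) :
    |off p z θ u k x - off p z θ u k y| ≤ ‖x - y‖ := by
  unfold off
  rw [← sub_im]
  have : conj (dir (angs p θ u k)) * (x - srcs p z u k) -
      conj (dir (angs p θ u k)) * (y - srcs p z u k) = conj (dir (angs p θ u k)) * (x - y) := by
    ring
  rw [this]
  refine (abs_im_le_norm _).trans ?_
  rw [norm_mul, RCLike.norm_conj, norm_dir, one_mul]

/-- the line crosses the open side `u k` in frame `k`, outwards -/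
def Off (p : Fin (n + 3) → ℂ) (z : ℂ) (θ : ℝ) (u : ℕ → Fin (n + 3)) (k : ℕ) : Prop :=
  off p z θ u k (p (u k)) < 0 ∧ 0 < off p z θ u k (p (u k + 1))

theorem off_orb (hp : IsConvexPolygon p) (O : Orb p z θ u t) (k : ℕ) : Off p z θ u k := by
  have h1 := off_diff (p := p) z θ u k (u k)
  have h2 := sl_neg hp O k
  obtain ⟨a, b, ha, hb, hab, h3⟩ := O.hit k
  have h4 : srcs p z u k + t k • dir (angs p θ u k) =
      p (u k) + b • (p (u k + 1) - p (u k)) := by
    rw [← h3]
    have : a = 1 - b := by linarith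
    rw [this, sub_smul, one_smul, smul_sub]
    ring
  have h5 := off_ray (p := p) z θ u k (t k)
  rw [h4, off_line, h1] at h5
  have h6 : 0 < b * (- sl p (u k) (angs p θ u k)) := mul_pos hb (by linarith)
  have h7 : b * (- sl p (u k) (angs p θ u k)) < - sl p (u k) (angs p θ u k) := by
    have : b < 1 := by linarith
    nlinarith
  constructor
  · linarith
  · linarith

/-- the crossing point with the side `u k` in frame `k` -/
noncomputable def yk (p : Fin (n + 3) → ℂ) (z : ℂ) (θ : ℝ) (u : ℕ → Fin (n + 3)) (k : ℕ) : ℂ :=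
  p (u k) + (- off p z θ u k (p (u k)) /
    (off p z θ u k (p (u k + 1)) - off p z θ u k (p (u k)))) • (p (u k + 1) - p (u k))

/-- the crossing time -/
noncomputable def tk (p : Fin (n + 3) → ℂ) (z : ℂ) (θ : ℝ) (u : ℕ → Fin (n + 3)) (k : ℕ) : ℝ :=
  (conj (dir (angs p θ u k)) * (yk p z θ u k - srcs p z u k)).re

theorem yk_side {k : ℕ} (h : Off p z θ u k) : yk p z θ u k ∈ side p (u k) := by
  obtain ⟨h1, h2⟩ := h
  set x : ℝ := - off p z θ u k (p (u k)) /
    (off p z θ u k (p (u k + 1)) - off p z θ u k (p (u k))) with hx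
  have hd : 0 < off p z θ u k (p (u k + 1)) - off p z θ u k (p (u k)) := by linarith
  have h0 : 0 < x := div_pos (by linarith) hd
  have h3 : x < 1 := by rw [hx, div_lt_one hd]; linarith
  refine ⟨1 - x, x, by linarith, h0, by ring, ?_⟩
  unfold yk
  rw [← hx, sub_smul, one_smul, smul_sub]
  ring

theorem yk_eq {k : ℕ} (h : Off p z θ u k) :
    srcs p z u k + tk p z θ u k • dir (angs p θ u k) = yk p z θ u k := by
  obtain ⟨h1, h2⟩ := h
  have hd : 0 < off p z θ u k (p (u k + 1)) - off p z θ u k (p (u k)) := by linarith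
  have h3 := decomp (yk p z θ u k - srcs p z u k) (angs p θ u k)
  have h4 : (conj (dir (angs p θ u k)) * (yk p z θ u k - srcs p z u k)).im = 0 := by
    change off p z θ u k (yk p z θ u k) = 0
    unfold yk
    rw [off_line]
    field_simp
    ring
  rw [h4, zero_smul, add_zero] at h3
  unfold tk
  rw [← h3]
  ring

theorem Off.sl {k : ℕ} (h : Off p z θ u k) : sl p (u k) (angs p θ u k) < 0 := by
  have h1 := off_diff (p := p) z θ u k (u k)
  have h2 := h.1
  have h3 := h.2
  linarith

theorem yk_next (hp : IsConvexPolygon p) {k : ℕ} (h : Off p z θ u k) :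
    srcs p z u (k + 1) + tk p z θ u k • dir (angs p θ u (k + 1)) = yk p z θ u k := by
  show rf p (u k) (srcs p z u k) + tk p z θ u k • dir (2 * tau p (u k) - angs p θ u k) = _
  rw [← rf_ray hp, yk_eq h]
  exact rf_fix hp _ _ (side_zero hp (yk_side h))

theorem affine_pos {α β a b s : ℝ} (h1 : 0 ≤ α + a * β) (h2 : 0 ≤ α + b * β)
    (h3 : 0 < α + a * β ∨ 0 < α + b * β) (ha : a < s) (hb : s < b) : 0 < α + s * β := by
  have hab : 0 < b - a := by linarith
  have e : (b - a) * (α + s * β) = (b - s) * (α + a * β) + (s - a) * (α + b * β) := by ring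
  have h4 : 0 < (b - s) * (α + a * β) + (s - a) * (α + b * β) := by
    rcases h3 with h | h
    · have := mul_pos (show 0 < b - s by linarith) h
      have := mul_nonneg (show 0 ≤ s - a by linarith) h2
      linarith
    · have := mul_pos (show 0 < s - a by linarith) h
      have := mul_nonneg (show 0 ≤ b - s by linarith) h1
      linarith
  rw [← e] at h4
  exact (mul_pos_iff_of_pos_left hab).1 h4

/-- A line which crosses the sides of the itinerary has the value of `f` along the itinerary. -/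
theorem pre_along (hp : IsConvexPolygon p) {f : ℂ × ℝ → ℝ} (hI : IsInvariantFun p f)
    (hz : z ∈ reg p) {K : ℕ} (hO : ∀ k ≤ K, Off p z θ u k) (hne : ∀ k < K, u (k + 1) ≠ u k) :
    ∀ k ≤ K, tp (tk p z θ u) k < tk p z θ u k ∧ ∀ s, tp (tk p z θ u) k < s →
      s < tk p z θ u k → ps p z θ u k s ∈ reg p ∧
        f (z, θ) = f (ps p z θ u k s, angs p θ u k) := by
  have hrr := region_eq hp
  intro k
  induction k with
  | zero =>
    intro _
    have h0 := hO 0 (Nat.zero_le _)
    have hy := yk_side h0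
    have he := yk_eq h0
    have hsl := h0.sl
    change z + tk p z θ u 0 • dir θ = yk p z θ u 0 at he
    change sl p (u 0) θ < 0 at hsl
    have h1 : sf p (u 0) (z + tk p z θ u 0 • dir θ) = 0 := by rw [he]; exact side_zero hp hy
    rw [sf_ray] at h1
    have h2 : 0 < sf p (u 0) z := hz (u 0)
    have ht : 0 < tk p z θ u 0 := by
      by_contra hcon
      push Not at hcon
      have := mul_nonneg_of_nonpos_of_nonpos hcon hsl.le
      linarith
    refine ⟨ht, fun s hs1 hs2 => ?_⟩
    change 0 < s at hs1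
    have hreg : z + s • dir θ ∈ reg p := by
      intro j
      change 0 < sf p j (z + s • dir θ)
      rw [sf_ray]
      have h3 : 0 < sf p j z := hz j
      refine affine_pos (a := 0) (b := tk p z θ u 0) (by linarith) ?_ (Or.inl (by linarith))
        hs1 hs2
      rw [← sf_ray, he]
      exact side_sub_creg hp _ hy j
    exact ⟨hreg, hI.free z θ s (by rw [hrr]; exact hz) (by rw [hrr]; exact hreg)⟩
  | succ k ih =>
    intro hk
    obtain ⟨ih1, ih2⟩ := ih (by omega)
    have h0 := hO k (by omega)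
    have h1 := hO (k + 1) hk
    have hu := hne k (by omega)
    have hy0 := yk_side h0
    have hy1 := yk_side h1
    have he0 := yk_next hp h0
    have he1 := yk_eq h1
    have hsl := h1.sl
    have a1 : 0 < sf p (u (k + 1)) (yk p z θ u k) := side_pos hp hy0 hu
    have a2 : sf p (u (k + 1)) (yk p z θ u (k + 1)) = 0 := side_zero hp hy1
    rw [← he0, sf_ray] at a1
    rw [← he1, sf_ray] at a2
    have ht : tk p z θ u k < tk p z θ u (k + 1) := by
      by_contra hcon
      push Not at hcon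
      have := mul_nonneg_of_nonpos_of_nonpos
        (show tk p z θ u (k + 1) - tk p z θ u k ≤ 0 by linarith) hsl.le
      have e : (tk p z θ u (k + 1) - tk p z θ u k) * sl p (u (k + 1)) (angs p θ u (k + 1)) =
        tk p z θ u (k + 1) * sl p (u (k + 1)) (angs p θ u (k + 1)) -
        tk p z θ u k * sl p (u (k + 1)) (angs p θ u (k + 1)) := by ring
      linarith
    refine ⟨ht, fun s hs1 hs2 => ?_⟩
    change tk p z θ u k < s at hs1
    have hreg : ps p z θ u (k + 1) s ∈ reg p := by
      intro j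
      change 0 < sf p j (srcs p z u (k + 1) + s • dir (angs p θ u (k + 1)))
      rw [sf_ray]
      refine affine_pos (a := tk p z θ u k) (b := tk p z θ u (k + 1)) ?_ ?_ ?_ hs1 hs2
      · rw [← sf_ray, he0]; exact side_sub_creg hp _ hy0 j
      · rw [← sf_ray, he1]; exact side_sub_creg hp _ hy1 j
      · by_cases hj : j = u k
        · right
          rw [← sf_ray, he1]
          exact side_pos hp hy1 (by rw [hj]; exact hu.symm)
        · left
          rw [← sf_ray, he0]
          exact side_pos hp hy0 hj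
    refine ⟨hreg, ?_⟩
    set s' : ℝ := (tp (tk p z θ u) k + tk p z θ u k) / 2 with hs'
    obtain ⟨b1, b2⟩ := ih2 s' (by rw [hs']; linarith) (by rw [hs']; linarith)
    rw [b2]
    have h := hI.reflect (u k) (yk p z θ u k) hy0 (angs p θ u k) (tk p z θ u k - s')
      (s - tk p z θ u k) (by rw [hs']; linarith) (by linarith)
    have e1 : yk p z θ u k - (tk p z θ u k - s') • dir (angs p θ u k) = ps p z θ u k s' := by
      rw [← yk_eq h0]; unfold ps; rw [sub_smul]; ring
    have e2 : yk p z θ u k + (s - tk p z θ u k) • dir (2 * tau p (u k) - angs p θ u k) =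
        ps p z θ u (k + 1) s := by
      rw [← he0]; unfold ps
      have hd : 2 * tau p (u k) - angs p θ u k = angs p θ u (k + 1) := rfl
      rw [hd, sub_smul]; ring
    rw [e1, e2, hrr] at h
    exact h b1 hreg

/-- The strip next to the orbit ends at a vertex. -/
theorem strip_point (hp : IsConvexPolygon p) {f : ℂ × ℝ → ℝ} (hI : IsInvariantFun p f)
    {c : Fin (n + 3) → ℝ} (O : Orb p z θ u t)
    {K : ℕ} {j : Fin (n + 3)} (hj : j = u K ∨ j = u K + 1) {ε : ℝ}
    (hdist : ‖pt p z θ u t K - p j‖ < ε) (hball : ∀ z', ‖z' - z‖ < ε → z' ∈ reg p)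
    (hV : ∀ k i, VL p f i (angs p θ u k) (c i)) {η : ℝ} (hη : 0 < η) :
    ∃ z' ∈ reg p, ‖z' - z‖ < ε ∧ ∃ i, |f (z', θ) - c i| < η := by
  -- the side of the strip
  have hoffj : |off p z θ u K (p j)| < ε := by
    have h1 := off_lip (p := p) z θ u K (p j) (pt p z θ u t K)
    have h2 : off p z θ u K (pt p z θ u t K) = 0 := off_ray z θ u K (t K)
    rw [h2, sub_zero, norm_sub_rev] at h1
    linarith
  obtain ⟨e, he, heK⟩ : ∃ e : ℝ, (e = 1 ∨ e = -1) ∧
      (((-1) ^ K * e = 1 ∧ j = u K + 1) ∨ ((-1) ^ K * e = -1 ∧ j = u K)) := by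
    rcases neg_one_pow_eq_or ℝ K with h | h <;> rcases hj with h2 | h2
    · exact ⟨-1, Or.inr rfl, Or.inr ⟨by rw [h]; ring, h2⟩⟩
    · exact ⟨1, Or.inl rfl, Or.inl ⟨by rw [h]; ring, h2⟩⟩
    · exact ⟨1, Or.inl rfl, Or.inr ⟨by rw [h]; ring, h2⟩⟩
    · exact ⟨-1, Or.inr rfl, Or.inl ⟨by rw [h]; ring, h2⟩⟩
  have hσ : ∀ k : ℕ, (-1) ^ k * e = 1 ∨ (-1) ^ k * e = -1 := by
    intro k
    rcases neg_one_pow_eq_or ℝ k with h | h <;> rcases he with h2 | h2 <;> rw [h, h2] <;> norm_num
  classical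
  set b : ℕ → ℝ := fun k => if (-1) ^ k * e = 1 then off p z θ u k (p (u k + 1)) else
    - off p z θ u k (p (u k)) with hb
  have hbK : b K < ε := by
    rcases heK with ⟨h1, h2⟩ | ⟨h1, h2⟩
    · rw [hb]; simp only
      rw [if_pos h1, ← h2]
      exact (le_abs_self _).trans_lt hoffj
    · rw [hb]; simp only
      rw [if_neg (by rw [h1]; norm_num), ← h2]
      exact (neg_le_abs _).trans_lt hoffj
  obtain ⟨k1, hk1, hmin⟩ := Finset.exists_min_image (Finset.range (K + 1)) b ⟨K, by simp⟩
  have hk1K : k1 ≤ K := by have := Finset.mem_range.1 hk1; omega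
  have hmin' : ∀ k ≤ K, b k1 ≤ b k := fun k hk => hmin k (Finset.mem_range.2 (by omega))
  set L := b k1 with hL
  have hbpos : 0 < L := by
    obtain ⟨h1, h2⟩ := off_orb hp O k1
    rw [hL, hb]; simp only
    split_ifs
    · exact h2
    · linarith
  have hLε : L < ε := (hmin' K le_rfl).trans_lt hbK
  -- the displaced lines
  have hOff : ∀ l, 0 < l → l < L → ∀ k ≤ K, Off p (z + (e * l) • (I * dir θ)) θ u k := by
    intro l hl1 hl2 k hk
    obtain ⟨h1, h2⟩ := off_orb hp O k
    have h3 := hl2.trans_le (hmin' k hk)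
    have h4 : (-1 : ℝ) ^ k * (e * l) = ((-1) ^ k * e) * l := by ring
    unfold Off
    rw [off_shift, off_shift, h4]
    rcases hσ k with h | h
    · rw [h]
      rw [hb] at h3; simp only at h3
      rw [if_pos h] at h3
      constructor <;> linarith
    · rw [h]
      rw [hb] at h3; simp only at h3
      rw [if_neg (by rw [h]; norm_num)] at h3
      constructor <;> linarith
  have hd : 0 < off p z θ u k1 (p (u k1 + 1)) - off p z θ u k1 (p (u k1)) := by
    obtain ⟨h1, h2⟩ := off_orb hp O k1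
    linarith
  set d := off p z θ u k1 (p (u k1 + 1)) - off p z θ u k1 (p (u k1)) with hdd
  -- the vertex
  obtain ⟨i1, hi1⟩ : ∃ i1, ∀ l, 0 < l → l < L →
      ‖yk p (z + (e * l) • (I * dir θ)) θ u k1 - p i1‖ ≤
        (L - l) / d * ‖p (u k1 + 1) - p (u k1)‖ := by
    rcases hσ k1 with h | h
    · refine ⟨u k1 + 1, fun l hl1 hl2 => ?_⟩
      have h4 : (-1 : ℝ) ^ k1 * (e * l) = l := by rw [← mul_assoc, h, one_mul]
      have hLv : L = off p z θ u k1 (p (u k1 + 1)) := by
        rw [hL, hb]; simp only; rw [if_pos h]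
      unfold yk
      rw [off_shift, off_shift, h4]
      have e1 : off p z θ u k1 (p (u k1 + 1)) - l - (off p z θ u k1 (p (u k1)) - l) = d := by
        rw [hdd]; ring
      rw [e1]
      have e2 : p (u k1) + (-(off p z θ u k1 (p (u k1)) - l) / d) • (p (u k1 + 1) - p (u k1)) -
          p (u k1 + 1) = (-((L - l) / d)) • (p (u k1 + 1) - p (u k1)) := by
        have e3 : -(off p z θ u k1 (p (u k1)) - l) / d = 1 + -((L - l) / d) := by
          have h5 : off p z θ u k1 (p (u k1)) = L - d := by rw [hdd, ← hLv]; ring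
          have h6 : d ≠ 0 := hd.ne'
          rw [h5]
          field_simp
          ring
        rw [e3, add_smul, one_smul]
        ring
      rw [e2, norm_smul, norm_neg, Real.norm_eq_abs, abs_of_pos (div_pos (by linarith) hd)]
    · refine ⟨u k1, fun l hl1 hl2 => ?_⟩
      have h4 : (-1 : ℝ) ^ k1 * (e * l) = -l := by rw [← mul_assoc, h]; ring
      have hLv : L = - off p z θ u k1 (p (u k1)) := by
        rw [hL, hb]; simp only; rw [if_neg (by rw [h]; norm_num)]
      unfold yk
      rw [off_shift, off_shift, h4]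
      have e1 : off p z θ u k1 (p (u k1 + 1)) - -l - (off p z θ u k1 (p (u k1)) - -l) = d := by
        rw [hdd]; ring
      rw [e1]
      have e2 : p (u k1) + (-(off p z θ u k1 (p (u k1)) - -l) / d) • (p (u k1 + 1) - p (u k1)) -
          p (u k1) = ((L - l) / d) • (p (u k1 + 1) - p (u k1)) := by
        have e3 : -(off p z θ u k1 (p (u k1)) - -l) / d = (L - l) / d := by
          rw [hLv]; congr 1; ring
        rw [e3]
        ring
      rw [e2, norm_smul, Real.norm_eq_abs, abs_of_pos (div_pos (by linarith) hd)]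
  -- the limit at the vertex
  have hlim : ∀ᶠ z' in 𝓝[reg p] (p i1), |f (z', angs p θ u k1) - c i1| < η := by
    have := Metric.tendsto_nhds.1 (hV k1 i1) _ hη
    simpa [Real.dist_eq] using this
  obtain ⟨r, hr, hr2⟩ := Metric.mem_nhdsWithin_iff.1 hlim
  obtain ⟨l, hl1, hl2, hl3⟩ : ∃ l : ℝ, 0 < l ∧ l < L ∧
      (L - l) / d * ‖p (u k1 + 1) - p (u k1)‖ < r / 2 := by
    have hc : Continuous fun l : ℝ => (L - l) / d * ‖p (u k1 + 1) - p (u k1)‖ := by fun_prop
    have h1 : ∀ᶠ l in 𝓝[<] L, (L - l) / d * ‖p (u k1 + 1) - p (u k1)‖ < r / 2 := by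
      refine ((hc.tendsto L).mono_left nhdsWithin_le_nhds).eventually_lt_const ?_
      rw [sub_self, zero_div, zero_mul]
      linarith
    obtain ⟨l, h2, h3, h4⟩ := (h1.and (Ioo_mem_nhdsLT hbpos)).exists
    exact ⟨l, h3, h4, h2⟩
  set z' : ℂ := z + (e * l) • (I * dir θ) with hz'
  have hnorm : ‖z' - z‖ = l := by
    have h1 : ‖I * dir θ‖ = 1 := by rw [norm_mul, norm_I, norm_dir, mul_one]
    rw [hz', add_sub_cancel_left, norm_smul, h1, mul_one, Real.norm_eq_abs, abs_mul]
    rcases he with h | h <;> rw [h] <;> simp [abs_of_pos hl1]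
  have hz'r : z' ∈ reg p := hball z' (by rw [hnorm]; linarith)
  have hne : ∀ k < K, u (k + 1) ≠ u k := fun k _ => u_ne hp O k
  obtain ⟨ht, hs⟩ := pre_along hp hI hz'r (hOff l hl1 hl2) hne k1 hk1K
  have hO1 := hOff l hl1 hl2 k1 hk1K
  set T := tk p z' θ u k1 with hT
  set T0 := tp (tk p z' θ u) k1 with hT0
  set s : ℝ := T - min (r / 2) (T - T0) / 2 with hsdef
  have h3 : 0 < min (r / 2) (T - T0) := lt_min (by linarith) (by linarith)
  have h4 := min_le_left (r / 2) (T - T0)
  have h5 := min_le_right (r / 2) (T - T0)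
  obtain ⟨h6, h7⟩ := hs s (by linarith) (by linarith)
  refine ⟨z', hz'r, by rw [hnorm]; linarith, i1, ?_⟩
  rw [h7]
  apply hr2
  refine ⟨?_, h6⟩
  rw [Metric.mem_ball, dist_eq_norm]
  have h8 := hi1 l hl1 hl2
  have h9 : ‖ps p z' θ u k1 s - yk p z' θ u k1‖ < r / 2 := by
    have : yk p z' θ u k1 = ps p z' θ u k1 T := (yk_eq hO1).symm
    rw [this, ps_diff, abs_sub_comm, abs_of_pos (by linarith)]
    linarith
  calc ‖ps p z' θ u k1 s - p i1‖ = ‖(ps p z' θ u k1 s - yk p z' θ u k1) +
        (yk p z' θ u k1 - p i1)‖ := by congr 1; ring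
    _ ≤ ‖ps p z' θ u k1 s - yk p z' θ u k1‖ + ‖yk p z' θ u k1 - p i1‖ := norm_add_le _ _
    _ < r := by linarith

/-- a point of a side close to a vertex is close to an endpoint of the side -/
theorem exists_c0 (hp : IsConvexPolygon p) : ∃ c0 : ℝ, 0 < c0 ∧ ∀ i, ∀ y ∈ side p i, ∀ j,
    ‖y - p j‖ < c0 → j = i ∨ j = i + 1 := by
  have h1 : ∀ i j : Fin (n + 3), ∀ᶠ c in 𝓝[>] (0 : ℝ), j ≠ i → j ≠ i + 1 →
      (‖p (i + 1) - p i‖ + 1) * c < sf p i (p j) := by
    intro i j
    by_cases hj : j ≠ i ∧ j ≠ i + 1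
    · have h2 : 0 < sf p i (p j) := hp.pos i j hj.1 hj.2
      have hc : Continuous fun c : ℝ => (‖p (i + 1) - p i‖ + 1) * c := by fun_prop
      have h3 : ∀ᶠ c in 𝓝[>] (0 : ℝ), (‖p (i + 1) - p i‖ + 1) * c < sf p i (p j) := by
        refine ((hc.tendsto 0).mono_left nhdsWithin_le_nhds).eventually_lt_const ?_
        rw [mul_zero]
        exact h2
      filter_upwards [h3] with c hc _ _ using hc
    · refine Eventually.of_forall fun c h3 h4 => absurd ⟨h3, h4⟩ hj
  have h2 : ∀ᶠ c in 𝓝[>] (0 : ℝ), ∀ i j : Fin (n + 3), j ≠ i → j ≠ i + 1 →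
      (‖p (i + 1) - p i‖ + 1) * c < sf p i (p j) := by
    rw [eventually_all]
    intro i
    rw [eventually_all]
    exact h1 i
  obtain ⟨c, hc, hc0⟩ := (h2.and self_mem_nhdsWithin).exists
  have hc0' : (0 : ℝ) < c := hc0
  refine ⟨c, hc0', fun i y hy j hyj => ?_⟩
  by_contra hcon
  push Not at hcon
  have h3 := hc i j hcon.1 hcon.2
  have h4 := (le_abs_self _).trans (sf_lip p i (p j) y)
  rw [side_zero hp hy, sub_zero, norm_sub_rev (p j) y] at h4
  have h5 : ‖p (i + 1) - p i‖ * ‖y - p j‖ ≤ ‖p (i + 1) - p i‖ * c :=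
    mul_le_mul_of_nonneg_left hyj.le (norm_nonneg _)
  linarith

end Pool.Agent.K3h72.BC
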