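import Pool.Agent.K3h72.BC.Lim
import Pool.Agent.K3h72.BC.Str
import Pool.Agent.K3h72.BC.App
import Pool.Agent.K3h72.BC.Avg

set_option autoImplicit false

/-!
Invariant functions which are continuous in the position.
-/

namespace Pool.Agent.K3h72.BC

open Complex Set MeasureTheory Filter Topology Pool.Agent.W780.PG Pool.Agent.W780.BB
open Pool.Agent.TH103.BL

open scoped Real ComplexConjugate

variable {n : ℕ} {p : Fin (n + 3) → ℂ}

theorem frame_word (hp : IsConvexPolygon p) (θ : ℝ) (u : ℕ → Fin (n + 3)) (k : ℕ) :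
    angs p θ u k = (fd p ((List.range k).map u) (0, θ)).2 := by
  have h := fd_word hp 0 θ 0 u k
  rw [zero_smul, add_zero] at h
  rw [h]

/-- pointwise: at a point of continuity the value is one of the values at the vertices -/
theorem value_at (hp : IsConvexPolygon p) {f : ℂ × ℝ → ℝ} (hI : IsInvariantFun p f)
    {c : Fin (n + 3) → ℝ} {z : ℂ} {θ : ℝ} (hz : z ∈ reg p)
    (hw : ∀ (w : List (Fin (n + 3))) i, VL p f i (fd p w (0, θ)).2 (c i))
    (happ : ∃ u t, Orb p z θ u t ∧ ∀ m : ℕ, ∃ k j, ‖pt p z θ u t k - p j‖ < 1 / ((m : ℝ) + 1))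
    (hc : ContinuousAt (fun z => f (z, θ)) z) : ∃ i, f (z, θ) = c i := by
  by_contra hcon
  push Not at hcon
  obtain ⟨c0, hc0, hside⟩ := exists_c0 hp
  obtain ⟨i0, -, hmin⟩ := Finset.exists_min_image Finset.univ (fun i => |f (z, θ) - c i|)
    ⟨0, Finset.mem_univ _⟩
  set δ := |f (z, θ) - c i0| with hδ
  have hδ0 : 0 < δ := abs_pos.2 (sub_ne_zero.2 (hcon i0))
  obtain ⟨r, hr, hr2⟩ := Metric.continuousAt_iff.1 hc (δ / 2) (by linarith)
  obtain ⟨ρ, hρ, hρ2⟩ := Metric.isOpen_iff.1 (reg_open hp) z hz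
  have hε : 0 < min c0 (min r ρ) := lt_min hc0 (lt_min hr hρ)
  obtain ⟨m, hm⟩ := exists_nat_one_div_lt hε
  obtain ⟨u, t, O, happ'⟩ := happ
  obtain ⟨K, j, hj⟩ := happ' m
  have hj1 := hj.trans hm
  have hs := hside (u K) _ (O.hit K) j (hj1.trans_le (min_le_left _ _))
  obtain ⟨z', -, h1, i, h2⟩ := strip_point hp hI O hs hj1
    (fun z' hz' => hρ2 (by
      rw [Metric.mem_ball, dist_eq_norm]
      exact hz'.trans_le ((min_le_right _ _).trans (min_le_right _ _))))
    (fun k i => by rw [frame_word hp]; exact hw _ i) (show 0 < δ / 2 by linarith)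
  have h3 := hr2 (show dist z' z < r by
    rw [dist_eq_norm]
    exact h1.trans_le ((min_le_right _ _).trans (min_le_left _ _)))
  rw [Real.dist_eq] at h3
  have h4 := hmin i (Finset.mem_univ _)
  have h5 : |f (z, θ) - c i| ≤ |f (z', θ) - f (z, θ)| + |f (z', θ) - c i| := by
    have : f (z, θ) - c i = -(f (z', θ) - f (z, θ)) + (f (z', θ) - c i) := by ring
    rw [this]
    refine (abs_add_le _ _).trans ?_
    rw [abs_neg]
  linarith

/-- The values are among the values at the vertices. -/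
theorem values (hp : IsConvexPolygon p) (hirr : ∀ i, Irrational (ang p i / π))
    {f : ℂ × ℝ → ℝ} (hf : Measurable f) (hI : IsInvariantFun p f)
    (hC : ∀ᵐ θ : ℝ, ∀ᵐ z : ℂ, z ∈ region p → ContinuousAt (fun z => f (z, θ)) z)
    (hV : ∀ᵐ θ : ℝ, ∀ i, ∀ z ∈ region p, sd p i (z, θ) = 0 →
      ContinuousAt (fun z => f (z, θ)) z) :
    ∃ c : Fin (n + 3) → ℝ, (∀ᵐ θ : ℝ, ∀ i, VL p f i θ (c i)) ∧
      ∀ᵐ θ : ℝ, ∀ᵐ z : ℂ, z ∈ region p → ∃ i, f (z, θ) = c i := by
  have hrr := region_eq hp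
  have hG := ae_GA hp (f := f) (by rw [← hrr]; exact hV)
  choose c hc using fun i => vl_const hp hf hI hG (hirr i)
  have hall : ∀ᵐ θ : ℝ, ∀ i, VL p f i θ (c i) := ae_all_iff.2 hc
  refine ⟨c, hall, ?_⟩
  filter_upwards [ae_words hp hall, ae_app hp, hC] with θ h1 h2 h3
  filter_upwards [h2, h3] with z h4 h5 hz
  have hzr' : z ∈ reg p := by rw [← hrr]; exact hz
  exact value_at hp hI hzr' h1 (h4 hzr') (h5 hz)

/-- Invariant functions which are continuous in the position are constant. -/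
theorem const_of_cont (hp : IsConvexPolygon p) (hirr : ∀ i, Irrational (ang p i / π))
    {f : ℂ × ℝ → ℝ} (hf : Measurable f) (hI : IsInvariantFun p f)
    (h : ∀ᵐ θ : ℝ, ContinuousOn (fun z => f (z, θ)) (region p)) :
    ∃ c : ℝ, ∀ᵐ θ : ℝ, ∀ z ∈ region p, f (z, θ) = c := by
  have hrr := region_eq hp
  have hopen := reg_open hp
  have hopen' : IsOpen (region p) := by rw [hrr]; exact hopen
  have hV : ∀ᵐ θ : ℝ, ∀ i, ∀ z ∈ region p, sd p i (z, θ) = 0 →
      ContinuousAt (fun z => f (z, θ)) z := by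
    filter_upwards [h] with θ hθ i z hz _
    exact hθ.continuousAt (hopen'.mem_nhds hz)
  obtain ⟨c, hVL, hval⟩ := values hp hirr hf hI (by
    filter_upwards [h] with θ hθ
    exact Eventually.of_forall fun z hz => hθ.continuousAt (hopen'.mem_nhds hz)) hV
  refine ⟨c 0, ?_⟩
  filter_upwards [h, hVL, hval] with θ h1 h2 h3
  have hfin : (range c).Finite := finite_range c
  -- all values are vertex values
  have h4 : ∀ z ∈ region p, f (z, θ) ∈ range c := by
    intro z hz
    by_contra hcon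
    have h5 : ∀ᶠ z' in 𝓝 z, f (z', θ) ∈ (range c)ᶜ :=
      (h1.continuousAt (hopen'.mem_nhds hz)).eventually
        (hfin.isClosed.isOpen_compl.mem_nhds hcon)
    have h6 : ∀ᶠ z' in 𝓝 z, z' ∈ region p := hopen'.mem_nhds hz
    obtain ⟨z', a1, a2, a3⟩ := (Measure.dense_of_ae h3).inter_nhds_nonempty (h5.and h6)
    obtain ⟨i, hi⟩ := a1 a3
    exact a2 ⟨i, hi.symm⟩
  have hpre : IsPreconnected (region p) := by
    rw [hrr]; exact (hB n p hp).2.2.1.isPreconnected
  have hdisc : IsDiscrete (range c) :=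
    isDiscrete_iff_discreteTopology.2 hfin.instDiscreteTopology
  have h5 : ∀ z ∈ region p, ∀ w ∈ region p, f (z, θ) = f (w, θ) := by
    intro z hz w hw
    exact hpre.constant_of_mapsTo hdisc (f := fun z => f (z, θ)) h1 (fun x hx => h4 x hx) hz hw
  intro z hz
  have hne := vertex_neBot hp 0
  have h6 : Tendsto (fun z => f (z, θ)) (𝓝[reg p] (p 0)) (𝓝 (f (z, θ))) := by
    refine Tendsto.congr' ?_ tendsto_const_nhds
    filter_upwards [self_mem_nhdsWithin] with w hw
    exact h5 z hz w (by rw [hrr]; exact hw)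
  exact tendsto_nhds_unique h6 (h2 0)

theorem ae_of_slices {P : ℂ × ℝ → Prop} (hm : MeasurableSet {x | P x})
    (h : ∀ᵐ θ : ℝ, ∀ᵐ z : ℂ, P (z, θ)) : ∀ᵐ x : ℂ × ℝ, P x := by
  have h1 : volume {x : ℂ × ℝ | ¬ P x} = 0 := by
    have hm' : MeasurableSet {x : ℂ × ℝ | ¬ P x} := hm.compl
    rw [Measure.volume_eq_prod, Measure.prod_apply_symm hm']
    rw [lintegral_eq_zero_iff' (measurable_measure_prodMk_right hm').aemeasurable]
    filter_upwards [h] with θ hθ
    exact hθ
  exact h1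

/-- At most as many values as there are vertices. -/
theorem ess_values (hp : IsConvexPolygon p) (hirr : ∀ i, Irrational (ang p i / π))
    {f : ℂ × ℝ → ℝ} (hf : Measurable f) (hI : IsInvariantFun p f)
    (h : ∀ᵐ θ : ℝ, ∃ g : ℂ → ℝ, (∀ᵐ z : ℂ, z ∈ region p → f (z, θ) = g z) ∧
      (∀ᵐ z : ℂ, z ∈ region p → ContinuousAt g z) ∧
      ∀ i, ∀ z ∈ region p, sd p i (z, θ) = 0 → ContinuousAt g z) :
    ∃ c : Fin (n + 3) → ℝ, ∀ᵐ x : ℂ × ℝ, x.1 ∈ region p → ∃ i, f x = c i := by
  have hrr := region_eq hp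
  have hopen' : IsOpen (region p) := by rw [hrr]; exact reg_open hp
  obtain ⟨c, -, hval⟩ := values hp hirr (rg_meas hf) (rg_inv hp hI) (by
    filter_upwards [h] with θ hθ
    obtain ⟨g, h1, h2, -⟩ := hθ
    filter_upwards [h2] with z h3 hz
    exact (rg_cont hf hopen' h1 hz (h3 hz)).2) (by
    filter_upwards [h] with θ hθ
    obtain ⟨g, h1, -, h3⟩ := hθ
    intro i z hz h0
    exact (rg_cont hf hopen' h1 hz (h3 i z hz h0)).2)
  refine ⟨fun i => Real.tan (c i), ae_of_slices ?_ ?_⟩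
  · have e : {x : ℂ × ℝ | x.1 ∈ region p → ∃ i, f x = Real.tan (c i)} =
        {x : ℂ × ℝ | x.1 ∈ region p}ᶜ ∪ ⋃ i, f ⁻¹' {Real.tan (c i)} := by
      ext x
      simp only [mem_ofPred_eq, mem_union, mem_compl_iff, mem_iUnion, mem_preimage,
        mem_singleton_iff]
      tauto
    rw [e]
    exact (measurable_fst hopen'.measurableSet).compl.union
      (MeasurableSet.iUnion fun i => hf (measurableSet_singleton _))
  · filter_upwards [h, hval] with θ hθ h4
    obtain ⟨g, h1, h2, -⟩ := hθ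
    filter_upwards [h1, h2, h4] with z h5 h6 h7 hz
    obtain ⟨i, hi⟩ := h7 hz
    refine ⟨i, ?_⟩
    rw [← hi, (rg_cont hf hopen' h1 hz (h6 hz)).1, Real.tan_arctan, h5 hz]

/-- Functions with a version continuous in the position are constant. -/
theorem ess_const (hp : IsConvexPolygon p) (hirr : ∀ i, Irrational (ang p i / π))
    {f : ℂ × ℝ → ℝ} (hf : Measurable f) (hI : IsInvariantFun p f)
    (h : ∀ᵐ θ : ℝ, ∃ g : ℂ → ℝ, (∀ᵐ z : ℂ, z ∈ region p → f (z, θ) = g z) ∧
      ContinuousOn g (region p)) :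
    ∃ c : ℝ, ∀ᵐ x : ℂ × ℝ, x.1 ∈ region p → f x = c := by
  have hrr := region_eq hp
  have hopen' : IsOpen (region p) := by rw [hrr]; exact reg_open hp
  obtain ⟨c, hc⟩ := const_of_cont hp hirr (rg_meas hf) (rg_inv hp hI) (by
    filter_upwards [h] with θ hθ
    obtain ⟨g, h1, h2⟩ := hθ
    intro z hz
    exact (rg_cont hf hopen' h1 hz (h2.continuousAt (hopen'.mem_nhds hz))).2.continuousWithinAt)
  refine ⟨Real.tan c, ae_of_slices ?_ ?_⟩
  · have e : {x : ℂ × ℝ | x.1 ∈ region p → f x = Real.tan c} =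
        {x : ℂ × ℝ | x.1 ∈ region p}ᶜ ∪ f ⁻¹' {Real.tan c} := by
      ext x
      simp only [mem_ofPred_eq, mem_union, mem_compl_iff, mem_preimage, mem_singleton_iff]
      tauto
    rw [e]
    exact (measurable_fst hopen'.measurableSet).compl.union (hf (measurableSet_singleton _))
  · filter_upwards [h, hc] with θ hθ h4
    obtain ⟨g, h1, h2⟩ := hθ
    filter_upwards [h1] with z h5 hz
    rw [← h4 z hz, (rg_cont hf hopen' h1 hz (h2.continuousAt (hopen'.mem_nhds hz))).1,
      Real.tan_arctan, h5 hz]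

end Pool.Agent.K3h72.BC
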