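import Pool.Agent.K3h72.BC.FinV

set_option autoImplicit false

/-!
Disjoint invariant sets of integrable positional perimeter.
-/

namespace Pool.Agent.K3h72.BC

open Complex Set MeasureTheory Filter Topology Pool.Agent.W780.PG Pool.Agent.W780.BB
open Pool.Agent.TH103.BL

open scoped Real ComplexConjugate ENNReal

variable {n : ℕ} {p : Fin (n + 3) → ℂ}

/-- The values at the vertices of two functions with disjoint supports. -/
theorem near_disjoint (hp : IsConvexPolygon p) {f g : ℂ × ℝ → ℝ}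
    (hfg : ∀ x, f x ≠ 0 → g x = 0) {a b : Fin (n + 3) → ℝ}
    (ha : ∀ᵐ θ : ℝ, ∀ i, ∃ r : ℝ, 0 < r ∧ ∀ᵐ z : ℂ, z ∈ region p → ‖z - p i‖ < r →
      f (z, θ) = a i)
    (hb : ∀ᵐ θ : ℝ, ∀ i, ∃ r : ℝ, 0 < r ∧ ∀ᵐ z : ℂ, z ∈ region p → ‖z - p i‖ < r →
      g (z, θ) = b i) (i : Fin (n + 3)) (hi : a i ≠ 0) : b i = 0 := by
  have hrr := region_eq hp
  have hopen : IsOpen (region p) := by rw [hrr]; exact reg_open hp
  obtain ⟨θ, h1, h2⟩ := (ha.and hb).exists
  obtain ⟨r, hr, h3⟩ := h1 i
  obtain ⟨s, hs, h4⟩ := h2 i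
  set U : Set ℂ := Metric.ball (p i) (min r s) ∩ region p with hU
  have hUo : IsOpen U := Metric.isOpen_ball.inter hopen
  have hne : U.Nonempty := by
    have h5 := vertex_neBot hp i
    have h6 : U ∈ 𝓝[reg p] (p i) := by
      rw [hU, hrr]
      exact inter_mem (mem_nhdsWithin_of_mem_nhds (Metric.ball_mem_nhds _ (lt_min hr hs)))
        self_mem_nhdsWithin
    exact h5.nonempty_of_mem h6
  have hpos : volume U ≠ 0 := (hUo.measure_pos volume hne).ne'
  have h7 : ∃ z ∈ U, f (z, θ) = a i ∧ g (z, θ) = b i := by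
    by_contra hcon
    push Not at hcon
    apply hpos
    rw [measure_eq_zero_iff_ae_notMem]
    filter_upwards [h3, h4] with z h5 h6 hz
    have h8 : ‖z - p i‖ < min r s := by
      have := hz.1
      rwa [Metric.mem_ball, dist_eq_norm] at this
    exact hcon z hz (h5 hz.2 (lt_of_lt_of_le h8 (min_le_left _ _)))
      (h6 hz.2 (lt_of_lt_of_le h8 (min_le_right _ _)))
  obtain ⟨z, -, h8, h9⟩ := h7
  rw [← h9]
  exact hfg _ (by rw [h8]; exact hi)

/-- Among `n + 4` pairwise disjoint invariant sets of the class one is null. -/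
theorem fpv_sets (hp : IsConvexPolygon p) (hirr : ∀ i, Irrational (ang p i / π))
    (E : Fin (n + 4) → Set (ℂ × ℝ)) (hm : ∀ k, MeasurableSet (E k))
    (hd : ∀ k l, k ≠ l → Disjoint (E k) (E l))
    (hE : ∀ k, IsInvariantFun p ((E k).indicator 1) ∧
      FinitePositionalVariation p ((E k).indicator 1)) :
    ∃ k, ∀ᵐ x : ℂ × ℝ, x.1 ∈ region p → x ∉ E k := by
  by_contra hcon
  push Not at hcon
  have hmf : ∀ k, Measurable ((E k).indicator (1 : ℂ × ℝ → ℝ)) := fun k =>
    measurable_one.indicator (hm k)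
  choose c h1 h2 using fun k => fpv_main hp hirr (hmf k) (hE k).1 (hE k).2
  have h3 : ∀ k, ∃ i, c k i ≠ 0 := by
    intro k
    by_contra h4
    push Not at h4
    refine hcon k ?_
    filter_upwards [h1 k] with x h5 h6
    obtain ⟨⟨i, h8⟩, -⟩ := h5 h6.1
    rw [indicator_of_mem h6.2, h4 i] at h8
    exact one_ne_zero h8
  choose v hv using h3
  obtain ⟨k, l, hkl, hvv⟩ := Fintype.exists_ne_map_eq_of_card_lt v (by simp)
  have h4 := near_disjoint hp (f := (E k).indicator 1) (g := (E l).indicator 1) (by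
    intro x hx
    have h5 : x ∈ E k := by
      by_contra h6
      exact hx (indicator_of_notMem h6 _)
    exact indicator_of_notMem (fun h6 => (hd k l hkl).le_bot ⟨h5, h6⟩) _) (h2 k) (h2 l) (v k)
    (hv k)
  exact hv l (by rw [← hvv]; exact h4)

end Pool.Agent.K3h72.BC
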