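import Pool.Agent.K3h72.BC.Jmp
import Pool.Agent.K3h72.BC.Fin

set_option autoImplicit false

/-!
Invariant functions of integrable positional variation.
-/

namespace Pool.Agent.K3h72.BC

open Complex Set MeasureTheory Filter Topology Pool.Agent.W780.PG Pool.Agent.W780.BB
open Pool.Agent.TH103.BL

open scoped Real ComplexConjugate ENNReal

variable {n : ℕ} {p : Fin (n + 3) → ℂ}

theorem fpv_ae {f : ℂ × ℝ → ℝ} (h : FinitePositionalVariation p f) :
    ∀ᵐ θ : ℝ, ∃ G : ℝ → ℝ, Ver p f θ G ∧ eVariationOn G univ ≠ ∞ := by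
  obtain ⟨V, hVm, hVp, hVi, hV⟩ := h
  have h1 : volume {θ | V θ = ∞} = 0 := by
    have hm : MeasurableSet {θ | V θ = ∞} := hVm (measurableSet_singleton _)
    refine null_of_period hm (fun θ => by simp only [mem_ofPred_eq, hVp]) ?_
    have h2 := ae_lt_top hVm hVi
    rw [ae_iff, Measure.restrict_apply' measurableSet_Ico] at h2
    refine measure_mono_null ?_ h2
    rintro θ ⟨h3, h4⟩
    refine ⟨?_, h4⟩
    have h5 : V θ = ∞ := h3
    simp [h5]
  filter_upwards [hV, measure_eq_zero_iff_ae_notMem.1 h1] with θ h2 h3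
  obtain ⟨G, h4, h5⟩ := h2
  refine ⟨G, h4, ?_⟩
  intro h6
  apply h3
  show V θ = ∞
  rw [h6] at h5
  exact top_le_iff.1 h5

/-- continuity at the starting points on the outgoing rays -/
theorem cont_sx (hp : IsConvexPolygon p) {f : ℂ × ℝ → ℝ} (hf : Measurable f)
    (hI : IsInvariantFun p f) (hFV : FinitePositionalVariation p f) :
    ∀ᵐ θ : ℝ, ∀ (i : Fin (n + 3)) (m : ℕ), sx p i (1 / ((m : ℝ) + 1)) θ ∈ reg p →
      ContinuousAt (fun z => rg f (z, θ)) (sx p i (1 / ((m : ℝ) + 1)) θ) := by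
  have hrr := region_eq hp
  have h1 : ∀ e1 e2 : ℝ, ∀ᵐ θ : ℝ, ∀ (i : Fin (n + 3)) (m k : ℕ),
      θ ∉ EE p (rg f) i (1 / ((m : ℝ) + 1)) e1 e2 (1 / ((k : ℝ) + 1)) := by
    intro e1 e2
    rw [ae_all_iff]
    intro i
    rw [ae_all_iff]
    intro m
    rw [ae_all_iff]
    intro k
    exact measure_eq_zero_iff_ae_notMem.1 (EE_null hp hf hI hFV i (by positivity) e1 e2
      (by positivity))
  filter_upwards [fpv_ae hFV, h1 1 (-1), h1 (-1) 1] with θ h2 h3 h4 i m hx
  obtain ⟨G, hv, hG⟩ := h2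
  have hx' : sx p i (1 / ((m : ℝ) + 1)) θ ∈ region p := by rw [hrr]; exact hx
  obtain ⟨L1, hL1⟩ := bv_right hG (os θ (sx p i (1 / ((m : ℝ) + 1)) θ))
  obtain ⟨L2, hL2⟩ := bv_left hG (os θ (sx p i (1 / ((m : ℝ) + 1)) θ))
  have e1 : J p (rg f) i (1 / ((m : ℝ) + 1)) 1 θ = Real.arctan L1 :=
    (sp_lim_right hp hf hv hx' hL1).limsup_eq
  have e2 : J p (rg f) i (1 / ((m : ℝ) + 1)) (-1) θ = Real.arctan L2 :=
    (sp_lim_left hp hf hv hx' hL2).limsup_eq
  have gen : ∀ A B : ℝ, (∀ k : ℕ, ¬ (B + 1 / ((k : ℝ) + 1) < A)) → A ≤ B := by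
    intro A B h
    by_contra hcon
    push Not at hcon
    obtain ⟨k, hk⟩ := exists_nat_one_div_lt (show 0 < A - B by linarith)
    exact h k (by linarith)
  have le1 : Real.arctan L1 ≤ Real.arctan L2 := by
    refine gen _ _ fun k hk => h3 i m k ⟨hx, ?_⟩
    rw [e1, e2]; exact hk
  have le2 : Real.arctan L2 ≤ Real.arctan L1 := by
    refine gen _ _ fun k hk => h4 i m k ⟨hx, ?_⟩
    rw [e1, e2]; exact hk
  have hL : L1 = L2 := Real.arctan_injective (le_antisymm le1 le2)
  subst hL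
  exact rg_cont_eq hp hf hv hx' hL2 hL1

/-- continuity on the outgoing rays -/
theorem cont_out (hp : IsConvexPolygon p) {f : ℂ × ℝ → ℝ} (hf : Measurable f)
    (hI : IsInvariantFun p f) (hFV : FinitePositionalVariation p f) :
    ∀ᵐ θ : ℝ, ∀ (i : Fin (n + 3)) (l : ℝ), 0 < l → p i + l • dir θ ∈ reg p →
      ContinuousAt (fun z => rg f (z, θ)) (p i + l • dir θ) := by
  have hrr := region_eq hp
  have hopen := reg_open hp
  have hFI := rg_inv hp hI
  filter_upwards [cont_sx hp hf hI hFV] with θ h1 i l hl hz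
  obtain ⟨m, hm⟩ := exists_nat_one_div_lt hl
  set s0 : ℝ := 1 / ((m : ℝ) + 1) with hs0
  have hs0p : 0 < s0 := by positivity
  have hx : sx p i s0 θ ∈ reg p := by
    have h2 := scale_in hp i hz (show 0 < s0 / l by positivity) (by
      rw [div_le_one hl]; exact hm.le)
    have e : p i + (s0 / l) • (p i + l • dir θ - p i) = sx p i s0 θ := by
      unfold sx
      rw [add_sub_cancel_left, smul_smul, div_mul_cancel₀ _ hl.ne']
    rwa [e] at h2
  have h2 := h1 i m hx
  set D : ℝ := s0 - l with hD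
  have hmove : p i + l • dir θ + D • dir θ = sx p i s0 θ := by
    unfold sx
    rw [hD, sub_smul]; ring
  have hc : Continuous fun z : ℂ => z + D • dir θ := by fun_prop
  have h3 : ContinuousAt (fun z => rg f (z + D • dir θ, θ)) (p i + l • dir θ) := by
    have h4 : ContinuousAt (fun z => rg f (z, θ)) (p i + l • dir θ + D • dir θ) := by
      rw [hmove]; exact h2
    exact ContinuousAt.comp (g := fun z => rg f (z, θ)) (f := fun z : ℂ => z + D • dir θ) h4
      hc.continuousAt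
  refine h3.congr ?_
  have h4 : ∀ᶠ z in 𝓝 (p i + l • dir θ), z ∈ reg p := hopen.mem_nhds hz
  have h5 : ∀ᶠ z in 𝓝 (p i + l • dir θ), z + D • dir θ ∈ reg p :=
    hc.continuousAt (hopen.mem_nhds (by rw [hmove]; exact hx))
  filter_upwards [h4, h5] with z h6 h7
  exact (hFI.free z θ D (by rw [hrr]; exact h6) (by rw [hrr]; exact h7)).symm

theorem lint_shift {V : ℝ → ℝ≥0∞} (hVp : ∀ θ, V (θ + 2 * π) = V θ) (b : ℝ) :
    ∫⁻ θ in Ico 0 (2 * π), V (θ + b) = ∫⁻ θ in Ico 0 (2 * π), V θ := by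
  have h1 : ∫⁻ θ in Ico 0 (2 * π), V (θ + b) = ∫⁻ θ in Ico b (b + 2 * π), V θ := by
    have h2 := (measurePreserving_add_right (volume : Measure ℝ) b).setLIntegral_comp_preimage_emb
      (measurableEmbedding_addRight b) V (Ico b (b + 2 * π))
    rw [← h2]
    congr 2
    ext θ
    simp only [mem_Ico, mem_preimage]
    constructor
    · rintro ⟨h3, h4⟩; constructor <;> linarith
    · rintro ⟨h3, h4⟩; constructor <;> linarith
  rw [h1]
  have h2 : ∀ c : ℝ, ∫⁻ θ in Ico c (c + 2 * π), V θ = ∫⁻ θ in Ioc c (c + 2 * π), V θ := by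
    intro c
    rw [Measure.restrict_congr_set Ico_ae_eq_Ioc]
  have hz : ∀ (k : ℤ) θ, V (k * (2 * π) + θ) = V θ := by
    intro k
    induction k using Int.induction_on with
    | zero => intro θ; simp
    | succ k ih =>
      intro θ
      have h3 := hVp ((k : ℤ) * (2 * π) + θ)
      rw [ih θ] at h3
      rw [← h3]
      congr 1
      push_cast; ring
    | pred k ih =>
      intro θ
      have h3 := hVp ((-(k : ℤ) - 1 : ℤ) * (2 * π) + θ)
      rw [← h3, ← ih θ]
      congr 1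
      push_cast; ring
  have h3 := (isAddFundamentalDomain_Ioc Real.two_pi_pos b).setLIntegral_eq
    (isAddFundamentalDomain_Ioc Real.two_pi_pos 0) V (by
      rintro ⟨g, hg⟩ θ
      obtain ⟨k, rfl⟩ := AddSubgroup.mem_zmultiples_iff.mp hg
      rw [show ((⟨k • (2 * π), hg⟩ : AddSubgroup.zmultiples (2 * π)) +ᵥ θ : ℝ) =
        k * (2 * π) + θ by
        rw [AddSubgroup.vadd_def]
        simp [zsmul_eq_mul]]
      exact hz k θ)
  rw [h2 b, h3, ← h2 0, zero_add]

theorem os_pi (θ : ℝ) (z : ℂ) : os (θ + π) z = - os θ z := by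
  unfold os
  rw [dir_pi, map_neg, neg_mul, neg_im]

/-- time reversal of the class -/
theorem fpv_rev {f : ℂ × ℝ → ℝ} (h : FinitePositionalVariation p f) :
    FinitePositionalVariation p (fun x => f (x.1, x.2 + π)) := by
  obtain ⟨V, hVm, hVp, hVi, hV⟩ := h
  refine ⟨fun θ => V (θ + π), hVm.comp (measurable_id.add_const _), fun θ => ?_, ?_, ?_⟩
  · show V (θ + 2 * π + π) = V (θ + π)
    rw [show θ + 2 * π + π = θ + π + 2 * π by ring, hVp]
  · rw [lint_shift hVp π]
    exact hVi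
  · have h1 := (measurePreserving_add_right (volume : Measure ℝ) π).quasiMeasurePreserving.ae hV
    filter_upwards [h1] with θ h2
    obtain ⟨G, h3, h4⟩ := h2
    refine ⟨fun s => G (-s), ?_, ?_⟩
    · filter_upwards [h3] with z h5 h6
      show f (z, θ + π) = G (-(conj (dir θ) * z).im)
      rw [h5 h6]
      congr 1
      exact os_pi θ z
    · refine le_trans ?_ h4
      exact eVariationOn.comp_le_of_antitoneOn G (fun s : ℝ => -s)
        (fun x _ y _ hxy => neg_le_neg hxy) (fun x _ => mem_univ _)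

theorem rg_rev (f : ℂ × ℝ → ℝ) (z : ℂ) (θ : ℝ) :
    rg (fun x => f (x.1, x.2 + π)) (z, θ) = rg f (z, θ + π) := rfl

/-- continuity at the lines through the vertices -/
theorem cont_lines (hp : IsConvexPolygon p) {f : ℂ × ℝ → ℝ} (hf : Measurable f)
    (hI : IsInvariantFun p f) (hFV : FinitePositionalVariation p f) :
    ∀ᵐ θ : ℝ, ∀ i, ∀ z ∈ region p, sd p i (z, θ) = 0 →
      ContinuousAt (fun z => rg f (z, θ)) z := by
  have hrr := region_eq hp
  have hf' : Measurable fun x : ℂ × ℝ => f (x.1, x.2 + π) :=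
    hf.comp (measurable_fst.prodMk (measurable_snd.add_const _))
  have h1 := cont_out hp hf hI hFV
  have h2 := cont_out hp hf' (rev_inv hI) (fpv_rev hFV)
  have h3 := (measurePreserving_add_right (volume : Measure ℝ) (-π)).quasiMeasurePreserving.ae h2
  filter_upwards [h1, h3] with θ h4 h5 i z hz h0
  rw [hrr] at hz
  obtain ⟨l, hl, -⟩ := sd_zero h0
  have hz1 : z = p i + l • dir θ := by rw [hl]; ring
  have e1 : dir (θ + -π) = - dir θ := by
    have := dir_pi (θ + -π)
    rw [neg_add_cancel_right] at this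
    rw [this, neg_neg]
  rcases lt_trichotomy l 0 with h | h | h
  · have h6 := h5 i (-l) (by linarith)
    rw [e1, smul_neg, neg_smul, neg_neg, ← hz1] at h6
    have h7 := h6 hz
    simp only [rg_rev, neg_add_cancel_right] at h7
    exact h7
  · exfalso
    rw [h, zero_smul, add_zero] at hz1
    have h6 := hz i
    rw [hz1] at h6
    change 0 < sf p i (p i) at h6
    rw [sf_self] at h6
    exact lt_irrefl _ h6
  · rw [hz1]
    rw [hz1] at hz
    exact h4 i l h hz

/-- the regularisation of a function of the class -/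
theorem fpv_core (hp : IsConvexPolygon p) (hirr : ∀ i, Irrational (ang p i / π))
    {f : ℂ × ℝ → ℝ} (hf : Measurable f) (hI : IsInvariantFun p f)
    (hFV : FinitePositionalVariation p f) :
    ∃ c : Fin (n + 3) → ℝ, (∀ᵐ θ : ℝ, ∀ i, VL p (rg f) i θ (c i)) ∧
      (∀ᵐ θ : ℝ, ∀ᵐ z : ℂ, z ∈ region p → (∃ i, rg f (z, θ) = c i) ∧
        rg f (z, θ) = Real.arctan (f (z, θ)) ∧ ContinuousAt (fun z => rg f (z, θ)) z) := by
  have h1 : ∀ᵐ θ : ℝ, ∀ᵐ z : ℂ, z ∈ region p → rg f (z, θ) = Real.arctan (f (z, θ)) ∧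
      ContinuousAt (fun z => rg f (z, θ)) z := by
    filter_upwards [fpv_ae hFV] with θ hθ
    obtain ⟨G, hv, hG⟩ := hθ
    exact rg_ae_cont hp hf hv hG
  obtain ⟨c, hc1, hc2⟩ := values hp hirr (rg_meas hf) (rg_inv hp hI) (by
    filter_upwards [h1] with θ hθ
    filter_upwards [hθ] with z hz h2 using (hz h2).2) (cont_lines hp hf hI hFV)
  refine ⟨c, hc1, ?_⟩
  filter_upwards [h1, hc2] with θ h2 h3
  filter_upwards [h2, h3] with z h4 h5 h6
  exact ⟨h5 h6, (h4 h6).1, (h4 h6).2⟩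

/-- invariance under reversal of the direction, for the regularisation -/
theorem fpv_sym (hp : IsConvexPolygon p) (hirr : ∀ i, Irrational (ang p i / π))
    {f : ℂ × ℝ → ℝ} (hf : Measurable f) (hI : IsInvariantFun p f)
    (hFV : FinitePositionalVariation p f) :
    ∀ᵐ θ : ℝ, ∀ᵐ z : ℂ, z ∈ region p → f (z, θ + π) = f (z, θ) := by
  have hrr := region_eq hp
  obtain ⟨c, hc1, hc2⟩ := fpv_core hp hirr hf hI hFV
  have hFI := rg_inv hp hI
  have hRI := rev_inv hFI
  set H : ℂ × ℝ → ℝ := fun x => rg f x - rg f (x.1, x.2 + π) with hH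
  have hHI : IsInvariantFun p H := by
    refine ⟨fun z θ => ?_, fun z θ s h1 h2 => ?_, fun i y hy θ s r h1 h2 h3 h4 => ?_⟩
    · have a1 := hFI.periodic z θ
      have a2 := hRI.periodic z θ
      simp only at a2
      rw [hH]; simp only
      rw [a1, a2]
    · have a1 := hFI.free z θ s h1 h2
      have a2 := hRI.free z θ s h1 h2
      simp only at a2
      rw [hH]; simp only
      rw [a1, a2]
    · have a1 := hFI.reflect i y hy θ s r h1 h2 h3 h4
      have a2 := hRI.reflect i y hy θ s r h1 h2 h3 h4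
      simp only at a2
      rw [hH]; simp only
      rw [a1, a2]
  have hsh := fun {P : ℝ → Prop} (h : ∀ᵐ θ : ℝ, P θ) =>
    (measurePreserving_add_right (volume : Measure ℝ) π).quasiMeasurePreserving.ae h
  have hVL : ∀ᵐ θ : ℝ, ∀ i, VL p H i θ 0 := by
    filter_upwards [hc1, hsh hc1] with θ h1 h2 i
    have h3 := (h1 i).sub (h2 i)
    rw [sub_self] at h3
    exact h3
  filter_upwards [ae_words hp hVL, ae_app hp, hc2, hsh hc2] with θ h1 h2 h3 h4
  filter_upwards [h2, h3, h4] with z h5 h6 h7 hz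
  have hzr : z ∈ reg p := by rw [← hrr]; exact hz
  obtain ⟨-, a2, a3⟩ := h6 hz
  obtain ⟨-, b2, b3⟩ := h7 hz
  obtain ⟨i, hi⟩ := value_at hp hHI (c := fun _ => 0) hzr h1 (h5 hzr) (a3.sub b3)
  rw [hH] at hi
  simp only at hi
  rw [a2, b2] at hi
  exact (Real.arctan_injective (by linarith)).symm

/-- near the vertices -/
theorem near_vertices (hp : IsConvexPolygon p) {F : ℂ → ℝ} {c : Fin (n + 3) → ℝ}
    {i : Fin (n + 3)} (h1 : Tendsto F (𝓝[reg p] (p i)) (𝓝 (c i)))
    (h2 : ∀ᵐ z : ℂ, z ∈ region p → ∃ j, F z = c j) :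
    ∃ r : ℝ, 0 < r ∧ ∀ᵐ z : ℂ, z ∈ region p → ‖z - p i‖ < r → F z = c i := by
  have hrr := region_eq hp
  have hfin : (range c \ {c i}).Finite := (finite_range c).sdiff
  have h3 : ∀ᶠ z in 𝓝[reg p] (p i), F z ∈ (range c \ {c i})ᶜ :=
    h1 (hfin.isClosed.isOpen_compl.mem_nhds (by simp))
  obtain ⟨r, hr, hball⟩ := Metric.mem_nhdsWithin_iff.1 h3
  refine ⟨r, hr, ?_⟩
  filter_upwards [h2] with z h4 h5 h6
  obtain ⟨j, hj⟩ := h4 h5
  have h7 := hball (show z ∈ Metric.ball (p i) r ∩ reg p from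
    ⟨by rw [Metric.mem_ball, dist_eq_norm]; exact h6, by rw [← hrr]; exact h5⟩)
  by_contra hne
  exact h7 ⟨⟨j, hj.symm⟩, hne⟩

/-- The structure of the invariant functions of integrable positional variation. -/
theorem fpv_main (hp : IsConvexPolygon p) (hirr : ∀ i, Irrational (ang p i / π))
    {f : ℂ × ℝ → ℝ} (hf : Measurable f) (hI : IsInvariantFun p f)
    (hFV : FinitePositionalVariation p f) :
    ∃ c : Fin (n + 3) → ℝ, (∀ᵐ x : ℂ × ℝ, x.1 ∈ region p → (∃ i, f x = c i) ∧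
      f (x.1, x.2 + π) = f x) ∧
      ∀ᵐ θ : ℝ, ∀ i, ∃ r : ℝ, 0 < r ∧ ∀ᵐ z : ℂ, z ∈ region p → ‖z - p i‖ < r →
        f (z, θ) = c i := by
  have hrr := region_eq hp
  have hopen' : IsOpen (region p) := by rw [hrr]; exact reg_open hp
  obtain ⟨c, hc1, hc2⟩ := fpv_core hp hirr hf hI hFV
  have hsym := fpv_sym hp hirr hf hI hFV
  refine ⟨fun i => Real.tan (c i), ae_of_slices ?_ ?_, ?_⟩
  · have e : {x : ℂ × ℝ | x.1 ∈ region p → (∃ i, f x = Real.tan (c i)) ∧
        f (x.1, x.2 + π) = f x} = {x : ℂ × ℝ | x.1 ∈ region p}ᶜ ∪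
        ((⋃ i, f ⁻¹' {Real.tan (c i)}) ∩ {x : ℂ × ℝ | f (x.1, x.2 + π) = f x}) := by
      ext x
      simp only [mem_ofPred_eq, mem_union, mem_compl_iff, mem_iUnion, mem_preimage,
        mem_singleton_iff, mem_inter_iff]
      tauto
    rw [e]
    refine (measurable_fst hopen'.measurableSet).compl.union
      ((MeasurableSet.iUnion fun i => hf (measurableSet_singleton _)).inter ?_)
    exact measurableSet_eq_fun (hf.comp (measurable_fst.prodMk (measurable_snd.add_const _))) hf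
  · filter_upwards [hc2, hsym] with θ h1 h2
    filter_upwards [h1, h2] with z h3 h4 h5
    obtain ⟨⟨i, hi⟩, h6, -⟩ := h3 h5
    refine ⟨⟨i, ?_⟩, h4 h5⟩
    rw [← hi, h6, Real.tan_arctan]
  · filter_upwards [hc1, hc2] with θ h1 h2 i
    obtain ⟨r, hr, h3⟩ := near_vertices hp (F := fun z => rg f (z, θ)) (c := c) (i := i) (h1 i)
      (by filter_upwards [h2] with z h4 h5 using (h4 h5).1)
    refine ⟨r, hr, ?_⟩
    filter_upwards [h2, h3] with z h4 h5 h6 h7
    obtain ⟨-, h8, -⟩ := h4 h6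
    rw [← h5 h6 h7, h8, Real.tan_arctan]

end Pool.Agent.K3h72.BC
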