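import Pool.Agent.K3h72.BC.Cnt

set_option autoImplicit false

/-!
Invariant functions of integrable positional variation have no jumps at the lines through the
vertices.
-/

namespace Pool.Agent.K3h72.BC

open Complex Set MeasureTheory Filter Topology Pool.Agent.W780.PG Pool.Agent.W780.BB
open Pool.Agent.TH103.BL

open scoped Real ComplexConjugate ENNReal

variable {n : ℕ} {p : Fin (n + 3) → ℂ}

/-- the starting point on the ray from the vertex -/
noncomputable def sx (p : Fin (n + 3) → ℂ) (i : Fin (n + 3)) (s0 θ : ℝ) : ℂ := p i + s0 • dir θ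

theorem sx_cont (i : Fin (n + 3)) (s0 : ℝ) : Continuous (sx p i s0) := by
  unfold sx
  exact continuous_const.add (continuous_dir.const_smul s0)

theorem sx_per (i : Fin (n + 3)) (s0 θ : ℝ) : sx p i s0 (θ + 2 * π) = sx p i s0 θ := by
  unfold sx
  rw [dir_periodic]

/-- the upper limit of `F` along the normal at the starting point -/
noncomputable def J (p : Fin (n + 3) → ℂ) (F : ℂ × ℝ → ℝ) (i : Fin (n + 3)) (s0 e θ : ℝ) : ℝ :=
  limsup (sp F e (sx p i s0 θ) θ) atTop

theorem J_meas {F : ℂ × ℝ → ℝ} (hF : Measurable F) (i : Fin (n + 3)) (s0 e : ℝ) :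
    Measurable (J p F i s0 e) := by
  unfold J
  refine Measurable.limsup fun m => ?_
  unfold sp
  refine hF.comp (Measurable.prodMk ?_ measurable_id)
  have h1 : Continuous fun θ : ℝ => I * dir θ := continuous_const.mul continuous_dir
  exact ((sx_cont i s0).add (h1.const_smul (e / ((m : ℝ) + 1)))).measurable

theorem J_per {F : ℂ × ℝ → ℝ} (hI : IsInvariantFun p F) (i : Fin (n + 3)) (s0 e θ : ℝ) :
    J p F i s0 e (θ + 2 * π) = J p F i s0 e θ := by
  unfold J
  refine limsup_congr (Eventually.of_forall fun m => ?_)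
  unfold sp
  rw [sx_per, dir_periodic, hI.periodic]

/-- directions with a jump larger than `a` -/
def EE (p : Fin (n + 3) → ℂ) (F : ℂ × ℝ → ℝ) (i : Fin (n + 3)) (s0 e1 e2 a : ℝ) : Set ℝ :=
  {θ | sx p i s0 θ ∈ reg p ∧ J p F i s0 e2 θ + a < J p F i s0 e1 θ}

/-- directions with a given itinerary -/
def TT (p : Fin (n + 3) → ℂ) (i : Fin (n + 3)) (s0 : ℝ) (w : List (Fin (n + 3))) : Set ℝ :=
  {θ | ∃ q : ℚ, (0 : ℝ) < q ∧ Ch p w (sx p i s0 θ) (sx p i s0 θ + (q : ℝ) • dir θ)}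

theorem TT_open (hp : IsConvexPolygon p) (i : Fin (n + 3)) (s0 : ℝ)
    (w : List (Fin (n + 3))) : IsOpen (TT p i s0 w) := by
  have e : TT p i s0 w = ⋃ q : ℚ, {θ | (0 : ℝ) < q ∧
      Ch p w (sx p i s0 θ) (sx p i s0 θ + (q : ℝ) • dir θ)} := by
    ext θ
    simp only [TT, mem_ofPred_eq, mem_iUnion]
  rw [e]
  refine isOpen_iUnion fun q => ?_
  by_cases hq : (0 : ℝ) < q
  · have h1 : IsOpen {θ : ℝ | Ch p w (sx p i s0 θ) (sx p i s0 θ + (q : ℝ) • dir θ)} :=
      (Pool.Agent.W762.BB.open_it n p hp w).preimage ((sx_cont i s0).prodMk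
        ((sx_cont i s0).add (continuous_dir.const_smul (q : ℝ))))
    have h2 : {θ | (0 : ℝ) < q ∧ Ch p w (sx p i s0 θ) (sx p i s0 θ + (q : ℝ) • dir θ)} =
        {θ : ℝ | Ch p w (sx p i s0 θ) (sx p i s0 θ + (q : ℝ) • dir θ)} := by
      ext θ; simp [hq]
    rw [h2]
    exact h1
  · have h2 : {θ | (0 : ℝ) < q ∧ Ch p w (sx p i s0 θ) (sx p i s0 θ + (q : ℝ) • dir θ)} =
        (∅ : Set ℝ) := by
      ext θ; simp [hq]
    rw [h2]
    exact isOpen_empty

theorem TT_per (i : Fin (n + 3)) (s0 : ℝ) (w : List (Fin (n + 3))) (θ : ℝ) :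
    θ + 2 * π ∈ TT p i s0 w ↔ θ ∈ TT p i s0 w := by
  simp only [TT, mem_ofPred_eq, sx_per, dir_periodic]

theorem EE_meas (hp : IsConvexPolygon p) {F : ℂ × ℝ → ℝ} (hF : Measurable F) (i : Fin (n + 3))
    (s0 e1 e2 a : ℝ) : MeasurableSet (EE p F i s0 e1 e2 a) := by
  refine MeasurableSet.inter ?_ ?_
  · exact ((reg_open hp).preimage (sx_cont i s0)).measurableSet
  · exact measurableSet_lt ((J_meas hF i s0 e2).add_const a) (J_meas hF i s0 e1)

theorem EE_per {F : ℂ × ℝ → ℝ} (hI : IsInvariantFun p F) (i : Fin (n + 3)) (s0 e1 e2 a θ : ℝ) :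
    θ + 2 * π ∈ EE p F i s0 e1 e2 a ↔ θ ∈ EE p F i s0 e1 e2 a := by
  simp only [EE, mem_ofPred_eq, sx_per, J_per hI]

/-- almost every direction with the starting point inside has itineraries of all lengths -/
theorem ae_cover (hp : IsConvexPolygon p) (i : Fin (n + 3)) {s0 : ℝ} (hs0 : 0 < s0) :
    ∀ᵐ θ : ℝ, sx p i s0 θ ∈ reg p → ∀ k : ℕ, ∃ w : List (Fin (n + 3)), w.length = k ∧
      θ ∈ TT p i s0 w := by
  filter_upwards [ae_gen p (p i)] with θ hθ hx k
  have hOk : Ok p (sx p i s0 θ) θ 0 := by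
    refine ⟨?_, ?_⟩
    · have hc : Continuous fun s : ℝ => sx p i s0 θ + s • dir θ := by fun_prop
      have h3 : ∀ᶠ s in 𝓝 (0 : ℝ), sx p i s0 θ + s • dir θ ∈ reg p :=
        hc.continuousAt ((reg_open hp).mem_nhds (by rw [zero_smul, add_zero]; exact hx))
      obtain ⟨δ, hδ, hball⟩ := Metric.eventually_nhds_iff.1 h3
      refine ⟨δ, hδ, fun s h4 h5 => hball ?_⟩
      rw [Real.dist_eq, sub_zero, abs_of_pos h4]
      exact h5
    · intro w j s hs heq
      refine hθ w j (s0 + s) (by linarith) ?_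
      rw [← heq]
      unfold sx
      rw [add_smul]
      ring
  obtain ⟨u, t, O⟩ := exists_orb hp hOk
  obtain ⟨q, hq1, hq2⟩ := exists_rat_btwn (tp_lt O k)
  refine ⟨(List.range k).map u, by simp, q, (tp_nonneg O k).trans_lt hq1, ?_⟩
  exact orb_ch hp O hq1 hq2

/-- all words shorter than `K` -/
noncomputable def WK (n K : ℕ) : Finset (List (Fin (n + 3))) :=
  (List.finite_length_lt (Fin (n + 3)) K).toFinset

theorem mem_WK {K : ℕ} {w : List (Fin (n + 3))} : w ∈ WK n K ↔ w.length < K := by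
  unfold WK
  simp

/-- lower bound for the total measure -/
theorem lower (hp : IsConvexPolygon p) {E : Set ℝ} (i : Fin (n + 3)) {s0 : ℝ} (hs0 : 0 < s0)
    (hE : ∀ θ ∈ E, sx p i s0 θ ∈ reg p) (K : ℕ) :
    (K : ℝ≥0∞) * volume (E ∩ Ico 0 (2 * π)) ≤
      ∑ w ∈ WK n K, volume ((E ∩ TT p i s0 w) ∩ Ico 0 (2 * π)) := by
  classical
  have h1 : ∀ k ∈ Finset.range K, volume (E ∩ Ico 0 (2 * π)) ≤
      ∑ w ∈ (WK n K).filter (fun w => w.length = k),
        volume ((E ∩ TT p i s0 w) ∩ Ico 0 (2 * π)) := by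
    intro k hk
    refine le_trans ?_ (measure_biUnion_finset_le _ _)
    refine measure_mono_ae ?_
    filter_upwards [ae_cover hp i hs0] with θ hθ hmem
    have hmem' : θ ∈ E ∩ Ico 0 (2 * π) := hmem
    obtain ⟨w, hw, hT⟩ := hθ (hE θ hmem'.1) k
    show θ ∈ ⋃ w ∈ (WK n K).filter (fun w => w.length = k),
      (E ∩ TT p i s0 w) ∩ Ico 0 (2 * π)
    rw [mem_iUnion₂]
    refine ⟨w, ?_, ⟨hmem'.1, hT⟩, hmem'.2⟩
    rw [Finset.mem_filter, mem_WK, hw]
    exact ⟨Finset.mem_range.1 hk, rfl⟩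
  have h2 := Finset.sum_le_sum h1
  rw [Finset.sum_const, Finset.card_range, nsmul_eq_mul] at h2
  refine h2.trans (le_of_eq ?_)
  refine Finset.sum_fiberwise_of_maps_to (g := List.length) ?_ _
  intro w hw
  exact Finset.mem_range.2 (mem_WK.1 hw)

/-- upper bound in a single direction -/
theorem upper (hp : IsConvexPolygon p) {f : ℂ × ℝ → ℝ} (hf : Measurable f)
    (hI : IsInvariantFun p f) (i : Fin (n + 3)) {s0 : ℝ} (hs0 : 0 < s0) {e1 e2 a : ℝ}
    {sg : List (Fin (n + 3)) → ℝ → ℝ}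
    (hsg : ∀ w φ, ∀ z, (fd p w (z, sg w φ)).2 = φ) {φ : ℝ} {G : ℝ → ℝ} (hv : Ver p f φ G)
    (hgen : ∀ w w' : List (Fin (n + 3)), fp p w (p i) ≠ fp p w' (p i) →
      os φ (fp p w (p i)) ≠ os φ (fp p w' (p i))) (T : Finset (List (Fin (n + 3))))
    (hT : ∀ w ∈ T, sg w φ ∈ EE p (rg f) i s0 e1 e2 a ∩ TT p i s0 w) :
    (T.card : ℝ≥0∞) * ENNReal.ofReal a ≤ eVariationOn G univ := by
  classical
  have hrr := region_eq hp
  have hFI := rg_inv hp hI
  -- the points of the orbits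
  have hpt : ∀ w ∈ T, ∃ q : ℝ, 0 < q ∧ Ch p w (sx p i s0 (sg w φ))
      (sx p i s0 (sg w φ) + q • dir (sg w φ)) ∧
      fp p w (sx p i s0 (sg w φ) + q • dir (sg w φ)) = fp p w (p i) + (s0 + q) • dir φ ∧
      fp p w (sx p i s0 (sg w φ)) = fp p w (p i) + s0 • dir φ := by
    intro w hw
    obtain ⟨-, q, hq, hch⟩ := hT w hw
    refine ⟨q, hq, hch, ?_, ?_⟩
    · have e : sx p i s0 (sg w φ) + (q : ℝ) • dir (sg w φ) =
          p i + (s0 + q) • dir (sg w φ) := by unfold sx; rw [add_smul]; ring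
      rw [e, fp_ray hp w (p i) (sg w φ) (s0 + q) 0, hsg]
    · unfold sx
      rw [fp_ray hp w (p i) (sg w φ) s0 0, hsg]
  -- the words are determined by the offsets
  have hinj : Set.InjOn (fun w => os φ (fp p w (p i))) (T : Set (List (Fin (n + 3)))) := by
    intro w hw w' hw' heq
    have hQ : fp p w (p i) = fp p w' (p i) := by
      by_contra hne
      exact hgen w w' hne heq
    obtain ⟨q, hq, hch, e1, e2⟩ := hpt w hw
    obtain ⟨q', hq', hch', e1', e2'⟩ := hpt w' hw'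
    have hx := (hT w hw).1.1
    have hx' := (hT w' hw').1.1
    have hrev := W973.BB.rev hR n p hp
    have r1 := hrev w _ _ hx hch
    have r2 := hrev w' _ _ hx' hch'
    rw [e1, e2] at r1
    rw [e1', e2', ← hQ] at r2
    set A0 := fp p w (p i) + s0 • dir φ with hA0
    have e3 : fp p w (p i) + (s0 + q) • dir φ = A0 + q • dir φ := by
      rw [hA0, add_smul]; ring
    have e4 : fp p w (p i) + (s0 + q') • dir φ = A0 + q' • dir φ := by
      rw [hA0, add_smul]; ring
    rw [e3] at r1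
    rw [e4] at r2
    have hy' : A0 + q' • dir φ ∈ reg p := by
      have := ch_mem w' _ _ hch'
      rw [e1', ← hQ, e4] at this
      exact this
    have e5 : A0 + (q' / q) • (A0 + q • dir φ - A0) = A0 + q' • dir φ := by
      rw [add_sub_cancel_left, smul_smul, div_mul_cancel₀ _ hq.ne']
    have r3 := ch_move w.reverse (div_pos hq' hq) (by rw [e5]; exact hy') r1
    rw [e5] at r3
    have := Pool.Agent.W108.BB.uniq n p hp _ _ _ _ r3 r2
    exact List.reverse_injective this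
  set S : Finset ℝ := T.image (fun w => os φ (fp p w (p i))) with hS
  have hcard : S.card = T.card := Finset.card_image_of_injOn hinj
  have hosc : ∀ s ∈ S, ∀ ρ : ℝ, 0 < ρ → ∃ s1 ∈ Ioo (s - ρ) (s + ρ),
      ∃ s2 ∈ Ioo (s - ρ) (s + ρ), a ≤ |G s1 - G s2| := by
    intro s hs
    rw [hS, Finset.mem_image] at hs
    obtain ⟨w, hw, rfl⟩ := hs
    obtain ⟨q, hq, hch, e1, -⟩ := hpt w hw
    obtain ⟨⟨hx, hJ⟩, -⟩ := hT w hw
    have h1 : Osc (rg f) (sx p i s0 (sg w φ)) (sg w φ) a := osc_of_lims (rg_bound hf) hJ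
    have h2 := osc_transport hp hFI hx hch h1
    rw [hsg, e1] at h2
    have hy : fp p w (p i) + (s0 + q) • dir φ ∈ region p := by
      have := ch_mem w _ _ hch
      rw [e1] at this
      rw [hrr]; exact this
    have h3 := osc_G hp hf hv hy h2
    rw [os_ray] at h3
    exact h3
  obtain ⟨b, hb⟩ : ∃ b : ℝ, ∀ s ∈ S, s < b := by
    obtain ⟨M, hM⟩ := S.bddAbove
    exact ⟨M + 1, fun s hs => (hM hs).trans_lt (by linarith)⟩
  have h1 := var_count S hosc b hb
  rw [hcard] at h1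
  exact h1.trans (eVariationOn.mono G (subset_univ _))

/-- no jumps larger than `a` -/
theorem EE_null (hp : IsConvexPolygon p) {f : ℂ × ℝ → ℝ} (hf : Measurable f)
    (hI : IsInvariantFun p f) (hFV : FinitePositionalVariation p f) (i : Fin (n + 3)) {s0 : ℝ}
    (hs0 : 0 < s0) (e1 e2 : ℝ) {a : ℝ} (ha : 0 < a) :
    volume (EE p (rg f) i s0 e1 e2 a) = 0 := by
  classical
  obtain ⟨V, hVm, hVp, hVi, hV⟩ := hFV
  have hFI := rg_inv hp hI
  have hFm := rg_meas hf
  set E := EE p (rg f) i s0 e1 e2 a with hE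
  have hEm : MeasurableSet E := EE_meas hp hFm i s0 e1 e2 a
  have hEp : ∀ θ, θ + 2 * π ∈ E ↔ θ ∈ E := EE_per hFI i s0 e1 e2 a
  have hreg : ∀ θ ∈ E, sx p i s0 θ ∈ reg p := fun θ h => h.1
  refine null_of_period hEm hEp ?_
  -- the inverse maps of directions
  choose ee cc hee hfd using fun w => fd_snd hp w
  set sg : List (Fin (n + 3)) → ℝ → ℝ := fun w φ => ee w * (φ - cc w) with hsg
  have hee2 : ∀ w, ee w * ee w = 1 := by
    intro w
    rcases hee w with h | h <;> rw [h] <;> norm_num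
  have hsgv : ∀ w φ, ∀ z, (fd p w (z, sg w φ)).2 = φ := by
    intro w φ z
    rw [hfd]
    have : ee w * sg w φ = (ee w * ee w) * (φ - cc w) := by rw [hsg]; ring
    rw [this, hee2]
    ring
  set A : List (Fin (n + 3)) → Set ℝ := fun w => E ∩ TT p i s0 w with hA
  have hAm : ∀ w, MeasurableSet (A w) := fun w => hEm.inter (TT_open hp i s0 w).measurableSet
  have hAp : ∀ w θ, θ + 2 * π ∈ A w ↔ θ ∈ A w := by
    intro w θ
    rw [hA]
    simp only [mem_inter_iff, hEp, TT_per]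
  set S : List (Fin (n + 3)) → Set ℝ := fun w => {φ | sg w φ ∈ A w} with hS
  have hSm : ∀ w, MeasurableSet (S w) := by
    intro w
    have : Measurable (sg w) := by
      rw [hsg]
      exact (measurable_id.sub_const _).const_mul _
    exact this (hAm w)
  have hSv : ∀ w, volume (S w ∩ Ico 0 (2 * π)) = volume (A w ∩ Ico 0 (2 * π)) := fun w =>
    vol_refl (hAm w) (hAp w) (hee w)
  -- the pointwise bound
  have hgen : ∀ᵐ φ : ℝ, ∀ w w' : List (Fin (n + 3)), fp p w (p i) ≠ fp p w' (p i) →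
      os φ (fp p w (p i)) ≠ os φ (fp p w' (p i)) := by
    rw [ae_all_iff]
    intro w
    rw [ae_all_iff]
    intro w'
    by_cases h : fp p w (p i) = fp p w' (p i)
    · exact Eventually.of_forall fun φ h2 => absurd h h2
    · filter_upwards [ae_os_ne h] with φ h1 _ using h1
  have hup : ∀ K : ℕ, ∀ᵐ φ : ℝ,
      ∑ w ∈ WK n K, (S w).indicator (fun _ => ENNReal.ofReal a) φ ≤ V φ := by
    intro K
    filter_upwards [hV, hgen] with φ h1 h2
    obtain ⟨G, hG1, hG2⟩ := h1
    have h3 := upper hp hf hI i hs0 (e1 := e1) (e2 := e2) (a := a) hsgv (G := G) hG1 h2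
      ((WK n K).filter fun w => φ ∈ S w) (fun w hw => (Finset.mem_filter.1 hw).2)
    refine le_trans (le_of_eq ?_) (h3.trans hG2)
    rw [← nsmul_eq_mul, ← Finset.sum_const, Finset.sum_filter]
    refine Finset.sum_congr rfl fun w _ => ?_
    rw [indicator_apply]
  -- integration
  have key : ∀ K : ℕ, (K : ℝ≥0∞) * (volume (E ∩ Ico 0 (2 * π)) * ENNReal.ofReal a) ≤
      ∫⁻ θ in Ico 0 (2 * π), V θ := by
    intro K
    have h1 := lower hp i hs0 hreg K (E := E)
    have h2 : ∫⁻ φ in Ico 0 (2 * π), ∑ w ∈ WK n K,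
        (S w).indicator (fun _ => ENNReal.ofReal a) φ ≤ ∫⁻ θ in Ico 0 (2 * π), V θ :=
      lintegral_mono_ae (ae_restrict_of_ae (hup K))
    rw [lintegral_finsetSum _ fun w _ => measurable_const.indicator (hSm w)] at h2
    refine le_trans ?_ h2
    have h3 : ∀ w ∈ WK n K, ∫⁻ φ in Ico 0 (2 * π),
        (S w).indicator (fun _ => ENNReal.ofReal a) φ =
        volume (A w ∩ Ico 0 (2 * π)) * ENNReal.ofReal a := by
      intro w _
      rw [lintegral_indicator_const (hSm w), Measure.restrict_apply (hSm w), hSv w, mul_comm]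
    rw [Finset.sum_congr rfl h3, ← Finset.sum_mul, ← mul_assoc]
    gcongr
  have h0 : volume (E ∩ Ico 0 (2 * π)) * ENNReal.ofReal a = 0 := by
    by_contra hne
    obtain ⟨K, hK⟩ := ENNReal.exists_nat_mul_gt hne hVi
    exact absurd (key K) (not_le.2 hK)
  rcases mul_eq_zero.1 h0 with h | h
  · exact h
  · exfalso
    rw [ENNReal.ofReal_eq_zero] at h
    linarith

end Pool.Agent.K3h72.BC
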