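import Mathlib

set_option autoImplicit false

/-!
Functions of bounded variation on the line.
-/

namespace Pool.Agent.K3h72.BC

open Set MeasureTheory Filter Topology

open scoped Real ENNReal

/-- jumps are bounded by the variation -/
theorem var_count {G : ℝ → ℝ} {a : ℝ} (S : Finset ℝ) :
    (∀ s ∈ S, ∀ ρ : ℝ, 0 < ρ → ∃ s1 ∈ Ioo (s - ρ) (s + ρ), ∃ s2 ∈ Ioo (s - ρ) (s + ρ),
      a ≤ |G s1 - G s2|) → ∀ b : ℝ, (∀ s ∈ S, s < b) →
    (S.card : ℝ≥0∞) * ENNReal.ofReal a ≤ eVariationOn G (Iio b) := by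
  induction S using Finset.induction_on_max with
  | empty => intro _ b _; simp
  | insert m S hm ih =>
    intro h b hb
    have hmS : m ∉ S := fun hh => lt_irrefl _ (hm m hh)
    -- a point between `S` and `m`
    obtain ⟨c, hc1, hc2⟩ : ∃ c, (∀ s ∈ S, s < c) ∧ c < m := by
      rcases S.eq_empty_or_nonempty with hS | hS
      · exact ⟨m - 1, by simp [hS], by linarith⟩
      · obtain ⟨c, h1, h2⟩ := exists_between (hm _ (S.max'_mem hS))
        exact ⟨c, fun s hs => (S.le_max' s hs).trans_lt h1, h2⟩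
    have h1 := ih (fun s hs => h s (Finset.mem_insert_of_mem hs)) c hc1
    have hmb : m < b := hb m (Finset.mem_insert_self _ _)
    obtain ⟨s1, hs1, s2, hs2, h3⟩ := h m (Finset.mem_insert_self _ _) (min (m - c) (b - m))
      (lt_min (by linarith) (by linarith))
    have e1 := min_le_left (m - c) (b - m)
    have e2 := min_le_right (m - c) (b - m)
    have h4 : ENNReal.ofReal a ≤ eVariationOn G (Ioo c b) := by
      have h5 := eVariationOn.edist_le G (s := Ioo c b) (x := s1) (y := s2)
        ⟨by have := hs1.1; linarith, by have := hs1.2; linarith⟩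
        ⟨by have := hs2.1; linarith, by have := hs2.2; linarith⟩
      refine le_trans ?_ h5
      rw [edist_dist, Real.dist_eq]
      exact ENNReal.ofReal_le_ofReal h3
    have h6 := eVariationOn.add_le_union G (s := Iio c) (t := Ioo c b)
      (fun x hx y hy => (hx.trans hy.1).le)
    have h7 : eVariationOn G (Iio c ∪ Ioo c b) ≤ eVariationOn G (Iio b) := by
      refine eVariationOn.mono G ?_
      rintro x (hx | hx)
      · exact hx.trans (hc2.trans hmb)
      · exact hx.2
    rw [Finset.card_insert_of_notMem hmS]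
    push_cast
    rw [add_mul, one_mul]
    exact (add_le_add h1 h4).trans (h6.trans h7)

theorem bv_left {G : ℝ → ℝ} (h : eVariationOn G univ ≠ ∞) (s : ℝ) :
    ∃ L, Tendsto G (𝓝[<] s) (𝓝 L) := by
  have h1 : BoundedVariationOn G univ := h
  obtain ⟨L, hL⟩ := h1.exists_tendsto_left s
  rw [univ_inter] at hL
  exact ⟨L, hL⟩

theorem bv_right {G : ℝ → ℝ} (h : eVariationOn G univ ≠ ∞) (s : ℝ) :
    ∃ L, Tendsto G (𝓝[>] s) (𝓝 L) := by
  have h1 : BoundedVariationOn G univ := h
  obtain ⟨L, hL⟩ := h1.exists_tendsto_right s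
  rw [univ_inter] at hL
  exact ⟨L, hL⟩

theorem bv_countable {G : ℝ → ℝ} (h : eVariationOn G univ ≠ ∞) :
    {s | ¬ ContinuousAt G s}.Countable := by
  have h1 : BoundedVariationOn G univ := h
  obtain ⟨q, r, hq, hr, hqr, -⟩ :=
    h1.locallyBoundedVariationOn.exists_monotoneOn_sub_monotoneOn'
  rw [monotoneOn_univ] at hq hr
  refine (hq.countable_not_continuousAt.union hr.countable_not_continuousAt).mono ?_
  intro s hs
  by_contra hcon
  rw [mem_union, not_or] at hcon
  simp only [mem_ofPred_eq, not_not] at hcon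
  apply hs
  rw [hqr]
  exact hcon.1.sub hcon.2

end Pool.Agent.K3h72.BC
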