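import Pool.Agent.K3h72.BC.Avg
import Pool.Agent.K3h72.BC.Str
import Pool.Agent.K3h72.BC.Var

set_option autoImplicit false

/-!
Jumps of invariant functions of bounded variation in the position.
-/

namespace Pool.Agent.K3h72.BC

open Complex Set MeasureTheory Filter Topology Pool.Agent.W780.PG Pool.Agent.W780.BB
open Pool.Agent.TH103.BL

open scoped Real ComplexConjugate ENNReal

variable {n : ℕ} {p : Fin (n + 3) → ℂ}

/-- the offset: the signed distance of `z` from the line through `0` in the direction `θ` -/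
noncomputable def os (θ : ℝ) (z : ℂ) : ℝ := (conj (dir θ) * z).im

theorem os_lip (θ : ℝ) (z w : ℂ) : |os θ z - os θ w| ≤ ‖z - w‖ := by
  unfold os
  rw [← sub_im, ← mul_sub]
  refine (abs_im_le_norm _).trans ?_
  rw [norm_mul, RCLike.norm_conj, norm_dir, one_mul]

theorem os_cont (θ : ℝ) : Continuous (os θ) := by
  unfold os
  exact continuous_im.comp (continuous_const.mul continuous_id)

theorem os_normal (θ : ℝ) (z : ℂ) (s : ℝ) : os θ (z + s • (I * dir θ)) = os θ z + s := by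
  unfold os
  have : conj (dir θ) * (z + s • (I * dir θ)) = conj (dir θ) * z +
      (s : ℂ) * (I * (conj (dir θ) * dir θ)) := by
    rw [real_smul]; ring
  rw [this, conj_dir_mul, mul_one, add_im, im_ofReal_mul, I_im, mul_one]

theorem os_ray (θ : ℝ) (z : ℂ) (s : ℝ) : os θ (z + s • dir θ) = os θ z := by
  unfold os
  have : conj (dir θ) * (z + s • dir θ) = conj (dir θ) * z +
      (s : ℂ) * (conj (dir θ) * dir θ) := by
    rw [real_smul]; ring
  rw [this, conj_dir_mul, mul_one, add_im, ofReal_im, add_zero]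

theorem os_null (θ s : ℝ) : volume {z : ℂ | os θ z = s} = 0 := by
  have hc : -I * conj (dir θ) ≠ 0 := by
    refine mul_ne_zero (neg_ne_zero.2 I_ne_zero) ?_
    intro h
    exact Pool.Agent.W337.BB.dir_ne θ ((map_eq_zero _).1 h)
  refine measure_mono_null ?_ (Pool.Agent.W337.BB.null_line (-I * conj (dir θ)) hc s)
  intro z hz
  have h1 : os θ z = s := hz
  show (-I * conj (dir θ) * z).re = s
  rw [← h1]
  unfold os
  simp [Complex.mul_re]
  ring

theorem arctan_lip (x y : ℝ) : |Real.arctan x - Real.arctan y| ≤ |x - y| := by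
  have h := Convex.norm_image_sub_le_of_norm_deriv_le (𝕜 := ℝ) (f := Real.arctan) (C := 1)
    (s := univ) (x := y) (y := x) (fun x _ => Real.differentiableAt_arctan x) (fun x _ => by
      rw [Real.deriv_arctan, Real.norm_eq_abs, abs_of_pos (by positivity)]
      rw [div_le_one (by positivity)]
      nlinarith [sq_nonneg x]) convex_univ (mem_univ _) (mem_univ _)
  rw [Real.norm_eq_abs, Real.norm_eq_abs, one_mul] at h
  exact h

/-- `G` is a version of `f (·, θ)` as a function of the offset. -/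
def Ver (p : Fin (n + 3) → ℂ) (f : ℂ × ℝ → ℝ) (θ : ℝ) (G : ℝ → ℝ) : Prop :=
  ∀ᵐ z : ℂ, z ∈ region p → f (z, θ) = G (os θ z)

/-- in every neighbourhood of `z` the function oscillates by more than `a` -/
def Osc (F : ℂ × ℝ → ℝ) (z : ℂ) (θ a : ℝ) : Prop := ∀ ρ : ℝ, 0 < ρ →
  ∃ z1 z2 : ℂ, ‖z1 - z‖ < ρ ∧ ‖z2 - z‖ < ρ ∧ a < F (z1, θ) - F (z2, θ)

theorem rg_bound {f : ℂ × ℝ → ℝ} (hf : Measurable f) (x : ℂ × ℝ) : |rg f x| ≤ π / 2 := by
  have h := rg_near hf (z0 := x.1) (z := x.1) (θ := x.2) (L := 0) (η := π / 2) (r := 1)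
    (Eventually.of_forall fun z _ => by
      rw [sub_zero, abs_le]
      exact ⟨(Real.neg_pi_div_two_lt_arctan _).le, (Real.arctan_lt_pi_div_two _).le⟩)
    (by rw [sub_self, norm_zero]; exact one_pos)
  rwa [sub_zero] at h

/-- values in an open set of offsets -/
theorem rg_open (hp : IsConvexPolygon p) {f : ℂ × ℝ → ℝ} (hf : Measurable f) {θ : ℝ}
    {G : ℝ → ℝ} (hv : Ver p f θ G) {U : Set ℝ} (hU : IsOpen U) {L η : ℝ}
    (h : ∀ s ∈ U, |Real.arctan (G s) - L| ≤ η) {z : ℂ} (hz : z ∈ region p)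
    (hzU : os θ z ∈ U) : |rg f (z, θ) - L| ≤ η := by
  have hrr := region_eq hp
  have hopen' : IsOpen (region p) := by rw [hrr]; exact reg_open hp
  have h0 : ∀ᶠ z' in 𝓝 z, z' ∈ region p := hopen'.mem_nhds hz
  have h1 : ∀ᶠ z' in 𝓝 z, z' ∈ region p ∧ os θ z' ∈ U :=
    h0.and ((os_cont θ).continuousAt (hU.mem_nhds hzU))
  obtain ⟨r, hr, hball⟩ := Metric.eventually_nhds_iff.1 h1
  refine rg_near hf (z0 := z) (r := r) ?_ (by rw [sub_self, norm_zero]; exact hr)
  filter_upwards [hv] with z' h2 h3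
  obtain ⟨a1, a2⟩ := hball (show dist z' z < r by rw [dist_eq_norm]; exact h3)
  rw [h2 a1]
  exact h _ a2

theorem osc_G (hp : IsConvexPolygon p) {f : ℂ × ℝ → ℝ} (hf : Measurable f) {θ : ℝ}
    {G : ℝ → ℝ} (hv : Ver p f θ G) {z : ℂ} (hz : z ∈ region p) {a : ℝ}
    (h : Osc (rg f) z θ a) : ∀ ρ : ℝ, 0 < ρ → ∃ s1 ∈ Ioo (os θ z - ρ) (os θ z + ρ),
      ∃ s2 ∈ Ioo (os θ z - ρ) (os θ z + ρ), a ≤ |G s1 - G s2| := by
  intro ρ hρ
  by_contra hcon
  push Not at hcon
  have hrr := region_eq hp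
  have hopen' : IsOpen (region p) := by rw [hrr]; exact reg_open hp
  set B : Set ℝ := (fun s => Real.arctan (G s)) '' Ioo (os θ z - ρ) (os θ z + ρ) with hB
  have hne : B.Nonempty := ⟨_, os θ z, ⟨by linarith, by linarith⟩, rfl⟩
  have hbd : BddBelow B := ⟨-(π / 2), by
    rintro _ ⟨s, -, rfl⟩
    exact (Real.neg_pi_div_two_lt_arctan _).le⟩
  set m := sInf B with hm
  have h1 : ∀ x ∈ B, m ≤ x := fun x hx => csInf_le hbd hx
  have h2 : ∀ x ∈ B, x ≤ m + a := by
    intro x hx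
    have : x - a ≤ m := by
      refine le_csInf hne fun y hy => ?_
      obtain ⟨s, hs, rfl⟩ := hx
      obtain ⟨s', hs', rfl⟩ := hy
      have e1 := hcon s hs s' hs'
      have e2 := arctan_lip (G s) (G s')
      have e3 := le_abs_self (Real.arctan (G s) - Real.arctan (G s'))
      simp only
      linarith
    linarith
  have h3 : ∀ s ∈ Ioo (os θ z - ρ) (os θ z + ρ),
      |Real.arctan (G s) - (m + a / 2)| ≤ a / 2 := by
    intro s hs
    have e1 := h1 _ ⟨s, hs, rfl⟩
    have e2 := h2 _ ⟨s, hs, rfl⟩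
    simp only at e1 e2
    rw [abs_le]
    constructor <;> linarith
  obtain ⟨ρ', hρ', hball⟩ := Metric.isOpen_iff.1 hopen' z hz
  obtain ⟨z1, z2, hz1, hz2, h4⟩ := h (min ρ ρ') (lt_min hρ hρ')
  have key : ∀ w : ℂ, ‖w - z‖ < min ρ ρ' → |rg f (w, θ) - (m + a / 2)| ≤ a / 2 := by
    intro w hw
    refine rg_open hp hf hv isOpen_Ioo h3 (hball ?_) ?_
    · rw [Metric.mem_ball, dist_eq_norm]
      exact hw.trans_le (min_le_right _ _)
    · have e1 := (abs_lt.1 ((os_lip θ w z).trans_lt (hw.trans_le (min_le_left _ _))))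
      constructor <;> linarith [e1.1, e1.2]
  have e1 := abs_le.1 (key z1 hz1)
  have e2 := abs_le.1 (key z2 hz2)
  linarith

/-- values along the normal -/
noncomputable def sp (F : ℂ × ℝ → ℝ) (e : ℝ) (z : ℂ) (θ : ℝ) (m : ℕ) : ℝ :=
  F (z + (e / ((m : ℝ) + 1)) • (I * dir θ), θ)

theorem sp_tendsto (e : ℝ) (z : ℂ) (θ : ℝ) :
    Tendsto (fun m : ℕ => z + (e / ((m : ℝ) + 1)) • (I * dir θ)) atTop (𝓝 z) := by
  have h1 : Tendsto (fun m : ℕ => e / ((m : ℝ) + 1)) atTop (𝓝 0) := by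
    have := (tendsto_one_div_add_atTop_nhds_zero_nat (𝕜 := ℝ)).const_mul e
    rw [mul_zero] at this
    refine this.congr fun m => ?_
    ring
  have h2 : Continuous fun s : ℝ => z + s • (I * dir θ) := by fun_prop
  have h3 := (h2.tendsto 0).comp h1
  rw [zero_smul, add_zero] at h3
  exact h3

theorem sp_lim_right (hp : IsConvexPolygon p) {f : ℂ × ℝ → ℝ} (hf : Measurable f) {θ : ℝ}
    {G : ℝ → ℝ} (hv : Ver p f θ G) {z : ℂ} (hz : z ∈ region p) {L : ℝ}
    (h : Tendsto G (𝓝[>] (os θ z)) (𝓝 L)) :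
    Tendsto (sp (rg f) 1 z θ) atTop (𝓝 (Real.arctan L)) := by
  have hrr := region_eq hp
  have hopen' : IsOpen (region p) := by rw [hrr]; exact reg_open hp
  rw [Metric.tendsto_atTop']
  intro η hη
  have h1 : Tendsto (fun s => Real.arctan (G s)) (𝓝[>] (os θ z)) (𝓝 (Real.arctan L)) :=
    (Real.continuous_arctan.tendsto L).comp h
  have h2 : ∀ᶠ s in 𝓝[>] (os θ z), |Real.arctan (G s) - Real.arctan L| < η / 2 := by
    have := Metric.tendsto_nhds.1 h1 (η / 2) (by linarith)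
    simpa [Real.dist_eq] using this
  obtain ⟨b, hb, hsub⟩ := (mem_nhdsGT_iff_exists_Ioo_subset'
    (show os θ z < os θ z + 1 by linarith)).1 h2
  have hb' : os θ z < b := hb
  have h3 := sp_tendsto 1 z θ
  have h4 : ∀ᶠ m : ℕ in atTop, z + ((1 : ℝ) / ((m : ℝ) + 1)) • (I * dir θ) ∈ region p :=
    h3 (hopen'.mem_nhds hz)
  have h5 : ∀ᶠ m : ℕ in atTop, 1 / ((m : ℝ) + 1) < b - os θ z :=
    tendsto_one_div_add_atTop_nhds_zero_nat.eventually_lt_const (by linarith)
  obtain ⟨N, hN⟩ := eventually_atTop.1 (h4.and h5)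
  refine ⟨N, fun m hm => ?_⟩
  obtain ⟨a1, a2⟩ := hN m hm.le
  have a3 : 0 < 1 / ((m : ℝ) + 1) := by positivity
  have h6 := rg_open hp hf hv (U := Ioo (os θ z) b) isOpen_Ioo (L := Real.arctan L)
    (η := η / 2) (fun s hs => (hsub hs).le) a1 (by
      rw [os_normal]
      constructor <;> linarith)
  rw [Real.dist_eq]
  unfold sp
  linarith

theorem sp_lim_left (hp : IsConvexPolygon p) {f : ℂ × ℝ → ℝ} (hf : Measurable f) {θ : ℝ}
    {G : ℝ → ℝ} (hv : Ver p f θ G) {z : ℂ} (hz : z ∈ region p) {L : ℝ}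
    (h : Tendsto G (𝓝[<] (os θ z)) (𝓝 L)) :
    Tendsto (sp (rg f) (-1) z θ) atTop (𝓝 (Real.arctan L)) := by
  have hrr := region_eq hp
  have hopen' : IsOpen (region p) := by rw [hrr]; exact reg_open hp
  rw [Metric.tendsto_atTop']
  intro η hη
  have h1 : Tendsto (fun s => Real.arctan (G s)) (𝓝[<] (os θ z)) (𝓝 (Real.arctan L)) :=
    (Real.continuous_arctan.tendsto L).comp h
  have h2 : ∀ᶠ s in 𝓝[<] (os θ z), |Real.arctan (G s) - Real.arctan L| < η / 2 := by
    have := Metric.tendsto_nhds.1 h1 (η / 2) (by linarith)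
    simpa [Real.dist_eq] using this
  obtain ⟨b, hb, hsub⟩ := (mem_nhdsLT_iff_exists_Ioo_subset'
    (show os θ z - 1 < os θ z by linarith)).1 h2
  have hb' : b < os θ z := hb
  have h3 := sp_tendsto (-1) z θ
  have h4 : ∀ᶠ m : ℕ in atTop, z + ((-1 : ℝ) / ((m : ℝ) + 1)) • (I * dir θ) ∈ region p :=
    h3 (hopen'.mem_nhds hz)
  have h5 : ∀ᶠ m : ℕ in atTop, 1 / ((m : ℝ) + 1) < os θ z - b :=
    tendsto_one_div_add_atTop_nhds_zero_nat.eventually_lt_const (by linarith)
  obtain ⟨N, hN⟩ := eventually_atTop.1 (h4.and h5)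
  refine ⟨N, fun m hm => ?_⟩
  obtain ⟨a1, a2⟩ := hN m hm.le
  have a3 : 0 < 1 / ((m : ℝ) + 1) := by positivity
  have a4 : (-1 : ℝ) / ((m : ℝ) + 1) = - (1 / ((m : ℝ) + 1)) := by ring
  have h6 := rg_open hp hf hv (U := Ioo b (os θ z)) isOpen_Ioo (L := Real.arctan L)
    (η := η / 2) (fun s hs => (hsub hs).le) a1 (by
      rw [os_normal, a4]
      constructor <;> linarith)
  rw [Real.dist_eq]
  unfold sp
  linarith

/-- continuity where `G` is continuous -/
theorem rg_cont_G (hp : IsConvexPolygon p) {f : ℂ × ℝ → ℝ} (hf : Measurable f) {θ : ℝ}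
    {G : ℝ → ℝ} (hv : Ver p f θ G) {z : ℂ} (hz : z ∈ region p)
    (h : ContinuousAt G (os θ z)) : rg f (z, θ) = Real.arctan (G (os θ z)) ∧
      ContinuousAt (fun z => rg f (z, θ)) z := by
  have hrr := region_eq hp
  have hopen' : IsOpen (region p) := by rw [hrr]; exact reg_open hp
  exact rg_cont hf hopen' (g := fun z => G (os θ z)) hv hz
    (ContinuousAt.comp (f := os θ) h (os_cont θ).continuousAt)

/-- continuity where the one-sided limits agree -/
theorem rg_cont_eq (hp : IsConvexPolygon p) {f : ℂ × ℝ → ℝ} (hf : Measurable f) {θ : ℝ}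
    {G : ℝ → ℝ} (hv : Ver p f θ G) {z : ℂ} (hz : z ∈ region p) {L : ℝ}
    (h1 : Tendsto G (𝓝[<] (os θ z)) (𝓝 L)) (h2 : Tendsto G (𝓝[>] (os θ z)) (𝓝 L)) :
    ContinuousAt (fun z => rg f (z, θ)) z := by
  classical
  set G' : ℝ → ℝ := Function.update G (os θ z) L with hG'
  have hv' : Ver p f θ G' := by
    have h3 := measure_eq_zero_iff_ae_notMem.1 (os_null θ (os θ z))
    filter_upwards [hv, h3] with z' h4 h5 h6
    have h7 : os θ z' ≠ os θ z := h5
    rw [h4 h6, hG', Function.update_of_ne h7]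
  have hc : ContinuousAt G' (os θ z) := by
    rw [continuousAt_iff_continuous_left'_right']
    have e : G' (os θ z) = L := by rw [hG', Function.update_self]
    constructor
    · rw [ContinuousWithinAt, e]
      refine Tendsto.congr' ?_ h1
      filter_upwards [self_mem_nhdsWithin] with s hs
      rw [hG', Function.update_of_ne (ne_of_lt hs)]
    · rw [ContinuousWithinAt, e]
      refine Tendsto.congr' ?_ h2
      filter_upwards [self_mem_nhdsWithin] with s hs
      rw [hG', Function.update_of_ne (ne_of_gt hs)]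
  exact (rg_cont_G hp hf hv' hz hc).2

/-- for functions of bounded variation: continuity at almost every point -/
theorem rg_ae_cont (hp : IsConvexPolygon p) {f : ℂ × ℝ → ℝ} (hf : Measurable f) {θ : ℝ}
    {G : ℝ → ℝ} (hv : Ver p f θ G) (hG : eVariationOn G univ ≠ ∞) :
    ∀ᵐ z : ℂ, z ∈ region p → rg f (z, θ) = Real.arctan (f (z, θ)) ∧
      ContinuousAt (fun z => rg f (z, θ)) z := by
  have h1 : volume {z : ℂ | ¬ ContinuousAt G (os θ z)} = 0 := by
    have e : {z : ℂ | ¬ ContinuousAt G (os θ z)} =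
        ⋃ s ∈ {s | ¬ ContinuousAt G s}, {z : ℂ | os θ z = s} := by
      ext z; simp
    rw [e]
    exact (measure_biUnion_null_iff (bv_countable hG)).2 fun s _ => os_null θ s
  filter_upwards [hv, measure_eq_zero_iff_ae_notMem.1 h1] with z h2 h3 h4
  have h5 : ContinuousAt G (os θ z) := by
    by_contra hcon
    exact h3 hcon
  obtain ⟨a, b⟩ := rg_cont_G hp hf hv h4 h5
  exact ⟨by rw [a, h2 h4], b⟩

/-- a gap between the upper limits from the two sides gives an oscillation -/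
theorem osc_of_lims {F : ℂ × ℝ → ℝ} {C : ℝ} (hF : ∀ x, |F x| ≤ C) {e1 e2 : ℝ} {z : ℂ} {θ a : ℝ}
    (h : limsup (sp F e2 z θ) atTop + a < limsup (sp F e1 z θ) atTop) : Osc F z θ a := by
  intro ρ hρ
  set A := limsup (sp F e1 z θ) atTop with hA
  set B := limsup (sp F e2 z θ) atTop with hB
  set η : ℝ := (A - B - a) / 2 with hη
  have hη0 : 0 < η := by rw [hη]; linarith
  have b1 : IsBoundedUnder (· ≤ ·) atTop (sp F e2 z θ) :=
    ⟨C, by rw [eventually_map]; exact Eventually.of_forall fun m => (abs_le.1 (hF _)).2⟩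
  have b2 : IsBoundedUnder (· ≥ ·) atTop (sp F e1 z θ) :=
    ⟨-C, by rw [eventually_map]; exact Eventually.of_forall fun m => (abs_le.1 (hF _)).1⟩
  have h1 : ∃ᶠ m in atTop, A - η < sp F e1 z θ m :=
    frequently_lt_of_lt_limsup b2.isCoboundedUnder_le (by rw [← hA]; linarith)
  have h2 : ∀ᶠ m in atTop, sp F e2 z θ m < B + η :=
    eventually_lt_of_limsup_lt (by rw [← hB]; linarith) b1
  have near : ∀ e : ℝ, ∀ᶠ m : ℕ in atTop,
      ‖z + (e / ((m : ℝ) + 1)) • (I * dir θ) - z‖ < ρ := by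
    intro e
    have := (sp_tendsto e z θ) (Metric.ball_mem_nhds z hρ)
    filter_upwards [this] with m hm
    rwa [mem_preimage, Metric.mem_ball, dist_eq_norm] at hm
  obtain ⟨m, h3, h4, h5, h6⟩ := (h1.and_eventually (h2.and ((near e1).and (near e2)))).exists
  refine ⟨_, _, h5, h6, ?_⟩
  unfold sp at h3 h4
  have : 2 * η = A - B - a := by rw [hη]; ring
  linarith

/-- oscillations are transported along orbits -/
theorem osc_transport (hp : IsConvexPolygon p) {F : ℂ × ℝ → ℝ} (hI : IsInvariantFun p F)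
    {w : List (Fin (n + 3))} {z : ℂ} {θ q a : ℝ} (hz : z ∈ reg p)
    (hch : Ch p w z (z + q • dir θ)) (h : Osc F z θ a) :
    Osc F (fp p w (z + q • dir θ)) (fd p w (z + q • dir θ, θ)).2 a := by
  intro ρ hρ
  have hopen := reg_open hp
  have hcz : Continuous fun z' : ℂ => z' + q • dir θ := by fun_prop
  have c1 : ∀ᶠ z' in 𝓝 z, Ch p w z' (z' + q • dir θ) :=
    ((Pool.Agent.W762.BB.open_it n p hp w).preimage
      (continuous_id.prodMk hcz)).mem_nhds hch
  have c2 : ∀ᶠ z' in 𝓝 z, z' ∈ reg p := hopen.mem_nhds hz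
  obtain ⟨r, hr, hball⟩ := Metric.eventually_nhds_iff.1 (c1.and c2)
  obtain ⟨z1, z2, h1, h2, h3⟩ := h (min r ρ) (lt_min hr hρ)
  have key : ∀ z' : ℂ, ‖z' - z‖ < min r ρ → ‖fp p w (z' + q • dir θ) -
      fp p w (z + q • dir θ)‖ < ρ ∧ F (z', θ) = F (fp p w (z' + q • dir θ),
        (fd p w (z + q • dir θ, θ)).2) := by
    intro z' hz'
    obtain ⟨a1, a2⟩ := hball (show dist z' z < r by
      rw [dist_eq_norm]; exact hz'.trans_le (min_le_left _ _))
    constructor
    · rw [(hR n p hp).2.2.2.2.2.2.2.1]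
      have : z' + q • dir θ - (z + q • dir θ) = z' - z := by ring
      rw [this]
      exact hz'.trans_le (min_le_right _ _)
    · rw [inv_fun hp hI a2 a1]
      congr 1
      refine Prod.ext ?_ ?_
      · exact (hR n p hp).2.2.2.2.2.2.2.2.1 w _ _
      · obtain ⟨e, c, -, he⟩ := (hR n p hp).2.2.2.2.2.2.2.2.2.2.1 w
        rw [(he _ _).1, (he _ _).1]
  obtain ⟨a1, a2⟩ := key z1 h1
  obtain ⟨b1, b2⟩ := key z2 h2
  exact ⟨_, _, a1, b1, by rw [← a2, ← b2]; exact h3⟩

end Pool.Agent.K3h72.BC
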