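import Pool.Agent.TH103.BL.Fun

set_option autoImplicit false

/-!
Limits at the vertices in single directions, for invariant functions which are continuous in the
position across the lines through the vertices.
-/

namespace Pool.Agent.K3h72.BC

open Complex Set MeasureTheory Filter Topology Pool.Agent.W780.PG Pool.Agent.W780.BB
open Pool.Agent.TH103.BL

open scoped Real ComplexConjugate

variable {n : ℕ} {p : Fin (n + 3) → ℂ}

/-- `f (z, θ)` tends to `L` as `z` tends to the vertex `p i` inside the polygon. -/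
def VL (p : Fin (n + 3) → ℂ) (f : ℂ × ℝ → ℝ) (i : Fin (n + 3)) (θ L : ℝ) : Prop :=
  Tendsto (fun z => f (z, θ)) (𝓝[reg p] (p i)) (𝓝 L)

theorem decomp (z : ℂ) (θ : ℝ) :
    z = (conj (dir θ) * z).re • dir θ + (conj (dir θ) * z).im • (I * dir θ) := by
  have hd : conj (dir θ) * dir θ = 1 := by
    rw [mul_comm, Complex.mul_conj, normSq_eq_norm_sq, norm_dir]
    norm_num
  set w : ℂ := conj (dir θ) * z with hw
  calc z = (conj (dir θ) * dir θ) * z := by rw [hd, one_mul]
    _ = w * dir θ := by rw [hw]; ring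
    _ = ((w.re : ℂ) + (w.im : ℂ) * I) * dir θ := by rw [Complex.re_add_im]
    _ = w.re • dir θ + w.im • (I * dir θ) := by rw [real_smul, real_smul]; ring

/-- limits at the vertex in directions whose line through the vertex crosses the region -/
theorem vl_cross (hp : IsConvexPolygon p) {f : ℂ × ℝ → ℝ} (hI : IsInvariantFun p f)
    {i : Fin (n + 3)} {θ s0 : ℝ} (h0 : p i + s0 • dir θ ∈ reg p)
    (hc : ContinuousAt (fun z => f (z, θ)) (p i + s0 • dir θ)) :
    VL p f i θ (f (p i + s0 • dir θ, θ)) := by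
  have hrr := region_eq hp
  have hopen := reg_open hp
  set S : ℂ → ℝ := fun z => s0 - (conj (dir θ) * (z - p i)).re with hS
  have hSc : Continuous S := continuous_const.sub (continuous_re.comp (continuous_const.mul
      (continuous_id.sub continuous_const)))
  set g : ℂ → ℂ := fun z => z + S z • dir θ with hg
  have hgc : Continuous g := continuous_id.add (hSc.smul continuous_const)
  have hg0 : g (p i) = p i + s0 • dir θ := by
    rw [hg]; simp [hS]
  have h1 : Tendsto g (𝓝[reg p] (p i)) (𝓝 (p i + s0 • dir θ)) := by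
    rw [← hg0]
    exact (hgc.tendsto _).mono_left nhdsWithin_le_nhds
  have h2 : Tendsto (fun z => f (g z, θ)) (𝓝[reg p] (p i)) (𝓝 (f (p i + s0 • dir θ, θ))) :=
    Tendsto.comp (y := 𝓝 (p i + s0 • dir θ)) (g := fun z => f (z, θ)) hc h1
  refine h2.congr' ?_
  filter_upwards [h1 (hopen.mem_nhds h0), self_mem_nhdsWithin] with z hz1 hz2
  exact (hI.free z θ _ (by rw [hrr]; exact hz2) (by rw [hrr]; exact hz1)).symm

/-- one reflection near the vertex -/
theorem vl_refl (hp : IsConvexPolygon p) {f : ℂ × ℝ → ℝ} (hI : IsInvariantFun p f)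
    {i a b : Fin (n + 3)} (hia : sf p a (p i) = 0) (hib : sf p b (p i) = 0)
    (hj : ∀ j, j ≠ a → j ≠ b → 0 < sf p j (p i)) {θ L : ℝ} (ha : sl p a θ < 0)
    (hb : 0 < sl p b θ) (h : VL p f i (2 * tau p a - θ) L) : VL p f i θ L := by
  have hrr := region_eq hp
  have hopen := reg_open hp
  set T : ℂ → ℝ := fun z => sf p a z / (- sl p a θ) with hT
  set Y : ℂ → ℂ := fun z => z + T z • dir θ with hY
  set R : ℂ → ℝ := fun z => sf p b (Y z) / (2 * ‖p (b + 1) - p b‖ + 1) with hR
  set Z : ℂ → ℂ := fun z => Y z + R z • dir (2 * tau p a - θ) with hZ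
  have hTc : Continuous T := (sf_cont p a).div_const _
  have hYc : Continuous Y := continuous_id.add (hTc.smul continuous_const)
  have hRc : Continuous R := ((sf_cont p b).comp hYc).div_const _
  have hZc : Continuous Z := hYc.add (hRc.smul continuous_const)
  have hT0 : T (p i) = 0 := by rw [hT]; simp [hia]
  have hY0 : Y (p i) = p i := by rw [hY]; simp [hT0]
  have hR0 : R (p i) = 0 := by rw [hR]; simp [hY0, hib]
  have hZ0 : Z (p i) = p i := by rw [hZ]; simp [hR0, hY0]
  have hYa : ∀ z, sf p a (Y z) = 0 := by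
    intro z
    rw [hY]; simp only
    rw [sf_ray, hT]
    have : sl p a θ ≠ 0 := ha.ne
    field_simp
    ring
  have hE : 0 < 2 * ‖p (b + 1) - p b‖ + 1 := by positivity
  -- all conditions hold near the vertex
  have hev : ∀ᶠ z in 𝓝[reg p] (p i), 0 < T z ∧ 0 < R z ∧ Y z ∈ side p a ∧ Z z ∈ reg p := by
    have c1 : ∀ j, ∀ᶠ z in 𝓝[reg p] (p i), j ≠ a → j ≠ b → 0 < sf p j (Y z) ∧
        0 < sf p j (Z z) := by
      intro j
      by_cases h1 : j = a
      · exact Eventually.of_forall fun _ h => absurd h1 h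
      by_cases h2 : j = b
      · exact Eventually.of_forall fun _ _ h => absurd h2 h
      have h3 : ∀ᶠ z in 𝓝 (p i), 0 < sf p j (Y z) :=
        (((sf_cont p j).comp hYc).tendsto (p i)).eventually_const_lt (by
          simp only [Function.comp, hY0]; exact hj j h1 h2)
      have h4 : ∀ᶠ z in 𝓝 (p i), 0 < sf p j (Z z) :=
        (((sf_cont p j).comp hZc).tendsto (p i)).eventually_const_lt (by
          simp only [Function.comp, hZ0]; exact hj j h1 h2)
      filter_upwards [nhdsWithin_le_nhds h3, nhdsWithin_le_nhds h4] with z a1 a2 _ _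
        using ⟨a1, a2⟩
    filter_upwards [eventually_all.2 c1, self_mem_nhdsWithin] with z hz hzr
    have hTz : 0 < T z := by
      rw [hT]
      exact div_pos (hzr a) (by linarith)
    have hYb : 0 < sf p b (Y z) := by
      rw [hY]; simp only
      rw [sf_ray]
      have h1 : 0 < sf p b z := hzr b
      have := mul_pos hTz hb
      linarith
    have hRz : 0 < R z := div_pos hYb hE
    refine ⟨hTz, hRz, ?_, ?_⟩
    · refine Pool.Agent.W82.BB.mem_side hp (hYa z) fun j hja => ?_
      by_cases hjb : j = b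
      · rw [hjb]; exact hYb
      · exact (hz j hja hjb).1
    · intro j
      change 0 < sf p j (Z z)
      by_cases hja : j = a
      · rw [hja, hZ]; simp only
        rw [sf_ray, hYa, sl_refl hp, zero_add]
        exact mul_pos hRz (by linarith)
      by_cases hjb : j = b
      · rw [hjb]
        have h1 := (abs_le.1 (sf_lip p b (Z z) (Y z))).1
        have h2 : ‖Z z - Y z‖ = R z := by
          rw [hZ]; simp only
          rw [add_sub_cancel_left, norm_smul, norm_dir, mul_one, Real.norm_eq_abs,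
            abs_of_pos hRz]
        rw [h2] at h1
        have h3 : R z * (2 * ‖p (b + 1) - p b‖ + 1) = sf p b (Y z) := by
          rw [hR]; simp only
          field_simp
        have h4 : 0 ≤ ‖p (b + 1) - p b‖ := norm_nonneg _
        nlinarith
      · exact (hz j hja hjb).2
  have hZt : Tendsto Z (𝓝[reg p] (p i)) (𝓝[reg p] (p i)) := by
    refine tendsto_nhdsWithin_iff.2 ⟨?_, ?_⟩
    · have := (hZc.tendsto (p i)).mono_left (nhdsWithin_le_nhds (s := reg p))
      rwa [hZ0] at this
    · filter_upwards [hev] with z hz using hz.2.2.2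
  have h5 := h.comp hZt
  refine Tendsto.congr' ?_ h5
  filter_upwards [hev, self_mem_nhdsWithin] with z ⟨h1, h2, h3, h4⟩ hzr
  have h6 := hI.reflect a (Y z) h3 θ (T z) (R z) h1 h2 (by
    rw [hrr]
    have : Y z - T z • dir θ = z := by rw [hY]; simp
    rw [this]; exact hzr) (by rw [hrr]; exact h4)
  have h7 : Y z - T z • dir θ = z := by rw [hY]; simp
  rw [h7] at h6
  exact h6.symm

/-- the reflection law for the limits, in one direction -/
theorem vl_law (hp : IsConvexPolygon p) {f : ℂ × ℝ → ℝ} (hI : IsInvariantFun p f)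
    {i a : Fin (n + 3)} (hia : i = a ∨ i = a + 1) {θ L L' : ℝ} (hsl : sl p a θ < 0)
    (h : VL p f i θ L) (h' : VL p f i (2 * tau p a - θ) L') : L = L' := by
  have hrr := region_eq hp
  have key : ∀ r : ℝ, 0 < r → ∃ z ∈ reg p, ∃ z' ∈ reg p, ‖z - p i‖ < r ∧ ‖z' - p i‖ < r ∧
      f (z, θ) = f (z', 2 * tau p a - θ) := by
    intro r hr
    -- a point of the side near the vertex
    obtain ⟨y0, hy0, hy0r⟩ : ∃ y0 ∈ side p a, ‖y0 - p i‖ < r / 2 := by
      have h1 : Tendsto (fun s : ℝ => p a + s • (p (a + 1) - p a)) (𝓝[>] 0) (𝓝 (p a)) := by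
        have : Continuous fun s : ℝ => p a + s • (p (a + 1) - p a) := by fun_prop
        have h2 := this.tendsto 0
        rw [zero_smul, add_zero] at h2
        exact h2.mono_left nhdsWithin_le_nhds
      have h2 : Tendsto (fun s : ℝ => p a + (1 - s) • (p (a + 1) - p a)) (𝓝[>] 0)
          (𝓝 (p (a + 1))) := by
        have : Continuous fun s : ℝ => p a + (1 - s) • (p (a + 1) - p a) := by fun_prop
        have h2 := this.tendsto 0
        rw [sub_zero, one_smul, add_sub_cancel] at h2
        exact h2.mono_left nhdsWithin_le_nhds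
      have hmem : ∀ s : ℝ, 0 < s → s < 1 → p a + s • (p (a + 1) - p a) ∈ side p a := by
        intro s h0 h1
        refine ⟨1 - s, s, by linarith, h0, by ring, ?_⟩
        rw [sub_smul, one_smul, smul_sub]
        ring
      have hlt1 : ∀ᶠ s in 𝓝[>] (0 : ℝ), s < 1 := by
        filter_upwards [Ioo_mem_nhdsGT (one_pos (α := ℝ))] with s hs using hs.2
      rcases hia with rfl | rfl
      · have h3 : ∀ᶠ s in 𝓝[>] (0 : ℝ), ‖p i + s • (p (i + 1) - p i) - p i‖ < r / 2 := by
          have := (h1.sub_const (p i)).norm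
          rw [sub_self, norm_zero] at this
          exact this.eventually_lt_const (by linarith)
        obtain ⟨s, ⟨h4, h5⟩, h6⟩ := ((h3.and hlt1).and self_mem_nhdsWithin).exists
        exact ⟨_, hmem s h6 h5, h4⟩
      · have h3 : ∀ᶠ s in 𝓝[>] (0 : ℝ),
            ‖p a + (1 - s) • (p (a + 1) - p a) - p (a + 1)‖ < r / 2 := by
          have := (h2.sub_const (p (a + 1))).norm
          rw [sub_self, norm_zero] at this
          exact this.eventually_lt_const (by linarith)
        obtain ⟨s, ⟨h4, h5⟩, h6⟩ := ((h3.and hlt1).and self_mem_nhdsWithin).exists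
        have h7 : (0 : ℝ) < s := h6
        exact ⟨_, hmem (1 - s) (by linarith) (by linarith), h4⟩
    have hy00 : sf p a y0 = 0 := side_zero hp hy0
    have hsl2 : 0 < sl p a (2 * tau p a - θ) := by rw [sl_refl hp]; linarith
    obtain ⟨s0, hs0, hs0r, hs01, hs02⟩ : ∃ s0 : ℝ, 0 < s0 ∧ s0 < r / 2 ∧
        y0 - s0 • dir θ ∈ reg p ∧ y0 + s0 • dir (2 * tau p a - θ) ∈ reg p := by
      have h1 : ∀ (φ : ℝ), 0 < sl p a φ → ∀ᶠ s in 𝓝[>] (0 : ℝ), y0 + s • dir φ ∈ reg p := by
        intro φ hφ
        have : ∀ j, ∀ᶠ s in 𝓝[>] (0 : ℝ), 0 < sf p j (y0 + s • dir φ) := by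
          intro j
          by_cases hj : j = a
          · subst hj
            filter_upwards [self_mem_nhdsWithin] with s hs
            rw [sf_ray, hy00, zero_add]
            exact mul_pos hs hφ
          · have hc : Continuous fun s : ℝ => sf p j (y0 + s • dir φ) :=
              (sf_cont p j).comp (by fun_prop)
            have h2 : 0 < sf p j (y0 + (0 : ℝ) • dir φ) := by
              rw [zero_smul, add_zero]; exact side_pos hp hy0 hj
            exact ((hc.tendsto 0).eventually_const_lt h2).filter_mono nhdsWithin_le_nhds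
        exact eventually_all.2 this
      have hneg : ∀ s : ℝ, y0 - s • dir θ = y0 + s • dir (θ + π) := by
        intro s
        rw [dir_pi, smul_neg, ← sub_eq_add_neg]
      have h2 : 0 < sl p a (θ + π) := by
        rw [sl_eq hp, show θ + π - tau p a = (θ - tau p a) + π by ring, Real.sin_add_pi,
          mul_neg, ← sl_eq hp]
        linarith
      have h3 : ∀ᶠ s in 𝓝[>] (0 : ℝ), s < r / 2 := by
        filter_upwards [Ioo_mem_nhdsGT (half_pos hr)] with s hs using hs.2
      obtain ⟨s, ⟨⟨h4, h5⟩, h6⟩, h7⟩ :=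
        (((h1 _ h2).and (h1 _ hsl2)).and h3).and self_mem_nhdsWithin |>.exists
      exact ⟨s, h7, h6, by rw [hneg]; exact h4, h5⟩
    refine ⟨_, hs01, _, hs02, ?_, ?_, ?_⟩
    · calc ‖y0 - s0 • dir θ - p i‖ = ‖(y0 - p i) - s0 • dir θ‖ := by congr 1; ring
        _ ≤ ‖y0 - p i‖ + ‖s0 • dir θ‖ := norm_sub_le _ _
        _ < r := by
          rw [norm_smul, norm_dir, mul_one, Real.norm_eq_abs, abs_of_pos hs0]
          linarith
    · calc ‖y0 + s0 • dir (2 * tau p a - θ) - p i‖ =
            ‖(y0 - p i) + s0 • dir (2 * tau p a - θ)‖ := by congr 1; ring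
        _ ≤ ‖y0 - p i‖ + ‖s0 • dir (2 * tau p a - θ)‖ := norm_add_le _ _
        _ < r := by
          rw [norm_smul, norm_dir, mul_one, Real.norm_eq_abs, abs_of_pos hs0]
          linarith
    · exact hI.reflect a y0 hy0 θ s0 s0 hs0 hs0 (by rw [hrr]; exact hs01)
        (by rw [hrr]; exact hs02)
  by_contra hne
  have hpos : 0 < |L - L'| / 2 := by
    have := abs_pos.2 (sub_ne_zero.2 hne)
    linarith
  have e1 : ∀ᶠ z in 𝓝[reg p] (p i), |f (z, θ) - L| < |L - L'| / 2 := by
    have := Metric.tendsto_nhds.1 h _ hpos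
    simpa [Real.dist_eq] using this
  have e2 : ∀ᶠ z in 𝓝[reg p] (p i), |f (z, 2 * tau p a - θ) - L'| < |L - L'| / 2 := by
    have := Metric.tendsto_nhds.1 h' _ hpos
    simpa [Real.dist_eq] using this
  obtain ⟨r, hr, hball⟩ := Metric.mem_nhdsWithin_iff.1 (e1.and e2)
  obtain ⟨z, hz, z', hz', h1, h2, h3⟩ := key r hr
  have a1 := (hball (show z ∈ Metric.ball (p i) r ∩ reg p from
    ⟨by rw [Metric.mem_ball, dist_eq_norm]; exact h1, hz⟩)).1
  have a2 := (hball (show z' ∈ Metric.ball (p i) r ∩ reg p from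
    ⟨by rw [Metric.mem_ball, dist_eq_norm]; exact h2, hz'⟩)).2
  rw [h3] at a1
  have a4 : |L - L'| ≤ |f (z', 2 * tau p a - θ) - L| + |f (z', 2 * tau p a - θ) - L'| := by
    have : L - L' = -(f (z', 2 * tau p a - θ) - L) + (f (z', 2 * tau p a - θ) - L') := by ring
    rw [this]
    refine (abs_add_le _ _).trans ?_
    rw [abs_neg]
  linarith

end Pool.Agent.K3h72.BC
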